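import Pool.Agent.N286.DE.Sets
import Pool.Agent.Y961.JR.Crit
import Pool.Agent.W147.PS.Scale

set_option autoImplicit false

/-! # The criterion for boxes -/

namespace Pool.Agent.N286.DE

open Finset Filter
open Pool.Agent.H256R2.SC (ff)
open Pool.Agent.W147.PS (ff_compare ev_pow)
open Pool.Agent.Helper170.Weyl (e)

/-- many members of the family are surrounded by integers with small prime factors -/
theorem crit_many (r : ℕ) (hr : 1 ≤ r) : ∃ κ : ℝ, 0 < κ ∧ ∃ X₀ : ℝ, ∀ X : ℝ, X₀ ≤ X →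
    κ * ff X + 1 ≤ (Real.log X) ^ 2 ∧
    ∀ (ι : Type) (s : Finset ι) (v : ι → Fin r → ℤ), s.Nonempty →
    (∀ q : ℕ, 1 ≤ q → (q : ℝ) ≤ X ^ (2 / 5 : ℝ) →
      ∀ ρ : Fin r → ℤ, |((s.filter (fun i => ∀ j, (q : ℤ) ∣ v i j - ρ j)).card : ℝ) -
        s.card / (q : ℝ) ^ r| ≤ s.card * X ^ (-(2 * (r : ℝ))) / 2) →
    ∀ G : Finset ι, (∀ i ∈ s, (∀ j, ∀ m : ℤ, |(m : ℝ) - v i j| ≤ κ * ff X + 1 →
      ∃ p : ℕ, p.Prime ∧ (p : ℝ) ≤ X ^ (1 / 10 : ℝ) ∧ (p : ℤ) ∣ m) → i ∈ G) →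
    (s.card : ℝ) * X ^ (-(2 * (r : ℝ))) / 8 ≤ G.card := by
  classical
  obtain ⟨κ, hκ, X₀, hc⟩ := Pool.Agent.Y961.JR.critJ r hr
  refine ⟨κ, hκ, max X₀ 1, fun X hX => ?_⟩
  have hX1 : 1 ≤ X := (le_max_right _ _).trans hX
  have hX0 : 0 < X := by linarith
  obtain ⟨h1, h2⟩ := hc X ((le_max_left _ _).trans hX)
  refine ⟨h1, ?_⟩
  intro ι s v hs heq G hG
  by_contra hcon
  push Not at hcon
  have hsc : (0 : ℝ) < s.card := by exact_mod_cast hs.card_pos
  set E : ℝ := X ^ (-(2 * (r : ℝ))) with hE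
  have hE0 : 0 < E := Real.rpow_pos_of_pos hX0 _
  have hE1 : E ≤ 1 := Real.rpow_le_one_of_one_le_of_nonpos hX1 (by
    have : (0 : ℝ) ≤ r := Nat.cast_nonneg _
    linarith)
  set s' := s \ G with hs'
  have hsub : s' ⊆ s := sdiff_subset
  have hcard1 : (s'.card : ℝ) ≤ s.card := by exact_mod_cast card_le_card hsub
  have hcard2 : (s.card : ℝ) ≤ s'.card + G.card := by
    have : s.card ≤ s'.card + G.card := by
      have h3 := card_le_card (show s ⊆ s' ∪ G by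
        intro i hi
        rw [mem_union, hs', Finset.mem_sdiff]
        by_cases h : i ∈ G
        · exact Or.inr h
        · exact Or.inl ⟨hi, h⟩)
      exact h3.trans (card_union_le _ _)
    exact_mod_cast this
  have hs'78 : 7 / 8 * (s.card : ℝ) ≤ s'.card := by
    have : (s.card : ℝ) * E ≤ s.card := mul_le_of_le_one_right hsc.le hE1
    linarith
  have hs'pos : (0 : ℝ) < s'.card := by linarith
  have hne : s'.Nonempty := by
    rw [← card_pos]
    exact_mod_cast hs'pos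
  obtain ⟨i, hi, hi2⟩ := h2 ι s' v hne (by
    intro q hq hqX ρ
    have h3 := abs_le.mp (heq q hq hqX ρ)
    have hq1 : (1 : ℝ) ≤ (q : ℝ) ^ r := one_le_pow₀ (by exact_mod_cast hq)
    have h4 : (((s'.filter (fun i => ∀ j, (q : ℤ) ∣ v i j - ρ j)).card : ℕ) : ℝ) ≤
        (s.filter (fun i => ∀ j, (q : ℤ) ∣ v i j - ρ j)).card := by
      exact_mod_cast card_le_card (filter_subset_filter _ hsub)
    have h5 : (((s.filter (fun i => ∀ j, (q : ℤ) ∣ v i j - ρ j)).card : ℕ) : ℝ) ≤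
        (s'.filter (fun i => ∀ j, (q : ℤ) ∣ v i j - ρ j)).card + G.card := by
      have : (s.filter (fun i => ∀ j, (q : ℤ) ∣ v i j - ρ j)).card ≤
        (s'.filter (fun i => ∀ j, (q : ℤ) ∣ v i j - ρ j)).card + G.card := by
        refine (card_le_card (show s.filter (fun i => ∀ j, (q : ℤ) ∣ v i j - ρ j) ⊆
          s'.filter (fun i => ∀ j, (q : ℤ) ∣ v i j - ρ j) ∪ G from ?_)).trans (card_union_le _ _)
        intro i hi
        rw [mem_filter] at hi
        rw [mem_union, mem_filter, hs', Finset.mem_sdiff]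
        by_cases h : i ∈ G
        · exact Or.inr h
        · exact Or.inl ⟨⟨hi.1, h⟩, hi.2⟩
      exact_mod_cast this
    have h6 : (s'.card : ℝ) / (q : ℝ) ^ r ≤ s.card / (q : ℝ) ^ r := by gcongr
    have h7 : (s.card : ℝ) / (q : ℝ) ^ r ≤ s'.card / (q : ℝ) ^ r + G.card := by
      have h8 : (s.card : ℝ) / (q : ℝ) ^ r ≤ (s'.card + G.card) / (q : ℝ) ^ r := by gcongr
      rw [add_div] at h8
      have h9 : (G.card : ℝ) / (q : ℝ) ^ r ≤ G.card := div_le_self (Nat.cast_nonneg _) hq1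
      linarith
    have h8 : 7 / 8 * (s.card : ℝ) * E ≤ s'.card * E := mul_le_mul_of_nonneg_right hs'78 hE0.le
    have h10 : 0 < (s.card : ℝ) * E := mul_pos hsc hE0
    rw [abs_le]
    constructor
    · linarith [h3.1, h3.2]
    · linarith [h3.1, h3.2])
  exact (Finset.mem_sdiff.1 hi).2 (hG i (hsub hi) hi2)

lemma one_add_pow_le (t : ℝ) (h0 : 0 ≤ t) (h1 : t ≤ 1) (n : ℕ) :
    (1 + t) ^ n ≤ 1 + (2 ^ n - 1) * t := by
  induction n with
  | zero => simp
  | succ n ih =>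
    have h2 : (1 : ℝ) ≤ 2 ^ n := one_le_pow₀ (by norm_num)
    calc (1 + t) ^ (n + 1) = (1 + t) ^ n * (1 + t) := pow_succ _ _
      _ ≤ (1 + (2 ^ n - 1) * t) * (1 + t) := mul_le_mul_of_nonneg_right ih (by linarith)
      _ ≤ _ := by
        rw [pow_succ]
        have h3 : t * t ≤ t := by nlinarith
        have h4 : (2 ^ n - 1) * (t * t) ≤ (2 ^ n - 1) * t :=
          mul_le_mul_of_nonneg_left h3 (by linarith)
        nlinarith

lemma prod_err {ι : Type*} (s : Finset ι) (y z : ι → ℝ) (t : ℝ) (ht : 0 ≤ t)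
    (hy : ∀ i ∈ s, 0 ≤ y i) (h : ∀ i ∈ s, |z i - y i| ≤ t * y i) :
    |∏ i ∈ s, z i - ∏ i ∈ s, y i| ≤ ((1 + t) ^ s.card - 1) * ∏ i ∈ s, y i := by
  classical
  induction s using Finset.induction_on with
  | empty => simp
  | insert a s ha ih =>
    rw [prod_insert ha, prod_insert ha, card_insert_of_notMem ha]
    have ih' := ih (fun i hi => hy i (mem_insert_of_mem hi)) (fun i hi => h i (mem_insert_of_mem hi))
    have hya := hy a (mem_insert_self _ _)
    have hza := h a (mem_insert_self _ _)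
    have hY : 0 ≤ ∏ i ∈ s, y i := prod_nonneg fun i hi => hy i (mem_insert_of_mem hi)
    have hz : |∏ i ∈ s, z i| ≤ (1 + t) ^ s.card * ∏ i ∈ s, y i := by
      have h1 : |∏ i ∈ s, z i| ≤ |∏ i ∈ s, z i - ∏ i ∈ s, y i| + |∏ i ∈ s, y i| := by
        have := abs_add_le (∏ i ∈ s, z i - ∏ i ∈ s, y i) (∏ i ∈ s, y i)
        rwa [sub_add_cancel] at this
      rw [abs_of_nonneg hY] at h1
      linarith
    have h2 : z a * ∏ i ∈ s, z i - y a * ∏ i ∈ s, y i =
        (z a - y a) * ∏ i ∈ s, z i + y a * (∏ i ∈ s, z i - ∏ i ∈ s, y i) := by ring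
    rw [h2]
    calc |(z a - y a) * ∏ i ∈ s, z i + y a * (∏ i ∈ s, z i - ∏ i ∈ s, y i)|
        ≤ |(z a - y a) * ∏ i ∈ s, z i| + |y a * (∏ i ∈ s, z i - ∏ i ∈ s, y i)| := abs_add_le _ _
      _ = |z a - y a| * |∏ i ∈ s, z i| + y a * |∏ i ∈ s, z i - ∏ i ∈ s, y i| := by
        rw [abs_mul, abs_mul, abs_of_nonneg hya]
      _ ≤ (t * y a) * ((1 + t) ^ s.card * ∏ i ∈ s, y i) +
          y a * (((1 + t) ^ s.card - 1) * ∏ i ∈ s, y i) := by
        refine add_le_add (mul_le_mul hza hz (abs_nonneg _) (mul_nonneg ht hya))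
          (mul_le_mul_of_nonneg_left ih' hya)
      _ = _ := by ring

/-- the size of a progression in an interval -/
lemma seg_card (a L q : ℕ) (hq : 1 ≤ q) (ρ : ℤ) :
    |((seg a L q ρ).card : ℝ) - (L : ℝ) / q| ≤ 1 := by
  have hq0 : (0 : ℝ) < q := by exact_mod_cast hq
  have hqz : (0 : ℤ) < q := by exact_mod_cast hq
  have h1 : (seg a L q ρ).card =
      ((Ico (a : ℤ) ((a + L : ℕ) : ℤ)).filter fun m => m ≡ ρ [ZMOD q]).card := by
    unfold seg
    refine card_nbij (fun m => (m : ℤ)) ?_ ?_ ?_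
    · intro m hm
      rw [mem_coe, mem_filter, mem_Ico] at hm ⊢
      refine ⟨⟨?_, ?_⟩, (Int.modEq_iff_dvd.2 hm.2).symm⟩
      · show (a : ℤ) ≤ (m : ℤ)
        exact_mod_cast hm.1.1
      · show (m : ℤ) < ((a + L : ℕ) : ℤ)
        exact_mod_cast hm.1.2
    · intro m _ m' _ h
      have h' : (m : ℤ) = (m' : ℤ) := h
      exact_mod_cast h'
    · intro m hm
      rw [mem_coe, mem_filter, mem_Ico] at hm
      obtain ⟨m', rfl⟩ := Int.eq_ofNat_of_zero_le (show 0 ≤ m by omega)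
      refine ⟨m', ?_, rfl⟩
      rw [mem_coe, mem_filter, mem_Ico]
      exact ⟨⟨by omega, by omega⟩, Int.modEq_iff_dvd.1 hm.2.symm⟩
  have h2 := Int.Ico_filter_modEq_card (a : ℤ) ((a + L : ℕ) : ℤ) hqz ρ
  set u : ℚ := (((a + L : ℕ) : ℤ) - ρ) / ((q : ℤ) : ℚ) with hu
  set w : ℚ := ((a : ℤ) - ρ) / ((q : ℤ) : ℚ) with hw
  have huw : u - w = (L : ℚ) / q := by
    rw [hu, hw]; push_cast; ring
  have huw0 : 0 ≤ u - w := by rw [huw]; positivity
  have h3 : ((seg a L q ρ).card : ℤ) = ⌈u⌉ - ⌈w⌉ := by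
    rw [h1, h2, max_eq_left]
    rw [sub_nonneg]
    exact Int.ceil_le_ceil (by linarith)
  have h4 : ((seg a L q ρ).card : ℚ) = ⌈u⌉ - ⌈w⌉ := by exact_mod_cast h3
  have h5 : |((seg a L q ρ).card : ℚ) - (L : ℚ) / q| ≤ 1 := by
    rw [h4, ← huw, abs_le]
    have e1 := Int.le_ceil u
    have e2 := Int.ceil_lt_add_one u
    have e3 := Int.le_ceil w
    have e4 := Int.ceil_lt_add_one w
    constructor <;> linarith
  have h6 : ((|((seg a L q ρ).card : ℚ) - (L : ℚ) / q| : ℚ) : ℝ) ≤ ((1 : ℚ) : ℝ) := by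
    exact_mod_cast h5
  push_cast at h6
  exact h6

end Pool.Agent.N286.DE
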