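import Pool.Agent.N286.DE.Box

set_option autoImplicit false

/-! # The core theorem for boxes -/

namespace Pool.Agent.N286.DE

open Finset Filter
open Pool.Agent.H256R2.SC (ff)
open Pool.Agent.W147.PS (ff_compare ev_pow)
open Pool.Agent.Helper170.Weyl (e)

/-- the growth conditions -/
lemma ev_core (r R : ℕ) (hr : 1 ≤ r) (δ : ℝ) (hδ : 0 < δ) : ∀ᶠ P : ℝ in atTop,
    2 ^ r * P ^ (-(3 * δ / 4)) + (2 * (1 + R * Real.log P)) ^ r * P ^ (-δ) ≤
      P ^ (-(δ / 4)) / 8 ∧ 16 ≤ P ^ (δ / 4) := by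
  have hr0 : (0 : ℝ) < r := by exact_mod_cast hr
  have h1 := ev_pow (-(3 * δ / 4)) (-(δ / 4)) (16 * 2 ^ r) (by linarith)
  have h2 := ev_pow (δ / 8) (3 * δ / 4) (16 * (2 * (1 + R)) ^ r) (by linarith)
  have h3 : ∀ᶠ P : ℝ in atTop, Real.log P ≤ P ^ (δ / (8 * r)) := by
    have h := (isLittleO_log_rpow_atTop (show (0 : ℝ) < δ / (8 * r) by positivity)).def
      (show (0 : ℝ) < 1 by norm_num)
    filter_upwards [h, eventually_ge_atTop (1 : ℝ)] with X hX hX1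
    rw [Real.norm_eq_abs, abs_of_nonneg (Real.log_nonneg hX1), Real.norm_eq_abs,
      abs_of_nonneg (Real.rpow_nonneg (by linarith) _)] at hX
    linarith
  filter_upwards [h1, h2, h3, eventually_ge_atTop (1 : ℝ),
    (tendsto_rpow_atTop (show (0 : ℝ) < δ / 4 by positivity)).eventually_ge_atTop 16]
    with P h1 h2 h3 hP h16
  have hP0 : 0 < P := by linarith
  refine ⟨?_, h16⟩
  have h4 : (1 : ℝ) ≤ P ^ (δ / (8 * r)) := Real.one_le_rpow hP (by positivity)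
  have hR0 : (0 : ℝ) ≤ R := Nat.cast_nonneg _
  have h5 : 2 * (1 + R * Real.log P) ≤ (2 * (1 + R)) * P ^ (δ / (8 * r)) := by
    have := mul_le_mul_of_nonneg_left h3 hR0
    nlinarith
  have h6 : (2 * (1 + R * Real.log P)) ^ r ≤ (2 * (1 + R)) ^ r * P ^ (δ / 8) := by
    have h7 : 0 ≤ 2 * (1 + R * Real.log P) := by
      have := Real.log_nonneg hP
      positivity
    refine (pow_le_pow_left₀ h7 h5 r).trans (le_of_eq ?_)
    rw [mul_pow, ← Real.rpow_natCast (P ^ (δ / (8 * r))) r, ← Real.rpow_mul hP0.le]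
    congr 2
    field_simp
  have h8 : (2 * (1 + R * Real.log P)) ^ r * P ^ (-δ) ≤ P ^ (-(δ / 4)) / 16 := by
    have h9 : P ^ (3 * δ / 4) * P ^ (-δ) = P ^ (-(δ / 4)) := by
      rw [← Real.rpow_add hP0]; congr 1; ring
    have h10 : 0 < P ^ (-δ) := Real.rpow_pos_of_pos hP0 _
    rw [← h9]
    have h11 : (2 * (1 + R * Real.log P)) ^ r ≤ P ^ (3 * δ / 4) / 16 := by linarith
    calc _ ≤ P ^ (3 * δ / 4) / 16 * P ^ (-δ) := mul_le_mul_of_nonneg_right h11 h10.le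
      _ = _ := by ring
  linarith

/-- the count of a box in a progression -/
lemma box_count (k K T p : ℕ) (hT : 1 ≤ T) (hp : 1 ≤ p) (hTp : T ≤ p ^ K)
    (n : ℕ → Fin k → ℕ)
    (hn : ∀ x < T, ∀ i, n x i < p) (M : ℝ)
    (hM : ∀ c < T, ∀ h : Fin k → ℕ, (∀ i, h i < p) → h ≠ 0 →
      ‖∑ x ∈ range T, e ((c : ℝ) * x / T) * ∏ i, e ((h i : ℝ) * n x i / p)‖ ≤ M)
    (hM0 : 0 ≤ M) (a L : ℕ) (c D : Fin k → ℕ) (ha : a + L ≤ T) (hc : ∀ i, c i + D i ≤ p)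
    (Y : ℝ) (hY : 0 < Y) (hL : Y ≤ L) (hD : ∀ i, Y ≤ D i) (q : ℕ) (hq : 1 ≤ q) (hqY : (q : ℝ) ≤ Y)
    (b : ℕ) (ρ : Fin (k + 1) → ℤ) :
    |((((Ico a (a + L)).filter fun x => ∀ i, n x i ∈ Ico (c i) (c i + D i)).filter fun x : ℕ =>
      ∀ j, (q : ℤ) ∣ (Fin.cons ((b : ℤ) + x) (fun i => (n x i : ℤ)) : Fin (k + 1) → ℤ) j -
        ρ j).card : ℝ) -
      (L * ∏ i, (D i : ℝ)) / (p : ℝ) ^ k / (q : ℝ) ^ (k + 1)| ≤
    2 ^ (k + 1) * (q / Y) * ((L * ∏ i, (D i : ℝ)) / (p : ℝ) ^ k) +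
      (2 * (1 + ((K + 1 : ℕ) : ℝ) * Real.log p)) ^ (k + 1) * M := by
  classical
  have hq0 : (0 : ℝ) < q := by exact_mod_cast hq
  have hp0 : (0 : ℝ) < p := by exact_mod_cast hp
  have hp1 : (1 : ℝ) ≤ p := by exact_mod_cast hp
  have hT0 : (0 : ℝ) < T := by exact_mod_cast hT
  have hlp : 0 ≤ Real.log p := Real.log_nonneg hp1
  have hset : (((Ico a (a + L)).filter fun x => ∀ i, n x i ∈ Ico (c i) (c i + D i)).filter
      fun x : ℕ => ∀ j, (q : ℤ) ∣ (Fin.cons ((b : ℤ) + x) (fun i => (n x i : ℤ)) :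
        Fin (k + 1) → ℤ) j - ρ j) =
      (seg a L q (ρ 0 - b)).filter fun x => ∀ i, n x i ∈ seg (c i) (D i) q (ρ i.succ) := by
    ext x
    unfold seg
    have hb : (b : ℤ) + x - ρ 0 = (x : ℤ) - (ρ 0 - b) := by ring
    simp only [mem_filter, mem_Ico, Fin.forall_fin_succ, Fin.cons_zero, Fin.cons_succ, hb]
    constructor
    · rintro ⟨⟨h1, h2⟩, h3, h4⟩
      exact ⟨⟨h1, h3⟩, fun i => ⟨h2 i, h4 i⟩⟩
    · rintro ⟨⟨h1, h3⟩, h2⟩
      exact ⟨⟨h1, fun i => (h2 i).1⟩, h3, fun i => (h2 i).2⟩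
  rw [hset]
  have hLT : L ≤ T := by omega
  have hDp : ∀ i, D i ≤ p := fun i => by have := hc i; omega
  have h1 := counting k T p hT hp n hn M hM (seg a L q (ρ 0 - b))
    (fun x hx => by
      have := (mem_filter.1 hx).1
      rw [mem_Ico] at this
      omega)
    (fun i => seg (c i) (D i) q (ρ i.succ))
    (fun i m hm => by
      have := (mem_filter.1 hm).1
      rw [mem_Ico] at this
      have := hc i
      omega)
    (2 * (1 + Real.log T)) (2 * (1 + Real.log p))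
    ((hat_seg T hT a L hLT q hq (ρ 0 - b)).trans (le_of_eq (by ring)))
    (fun i => (hat_seg p hp (c i) (D i) (hDp i) q hq (ρ i.succ)).trans (le_of_eq (by ring))) hM0
  have hlT : Real.log T ≤ K * Real.log p := by
    rw [← Real.log_pow]
    exact Real.log_le_log hT0 (by exact_mod_cast hTp)
  have hlT0 : 0 ≤ Real.log T := Real.log_nonneg (by exact_mod_cast hT)
  set Λ : ℝ := 2 * (1 + ((K + 1 : ℕ) : ℝ) * Real.log p) with hΛ
  have hΛT : 2 * (1 + Real.log T) ≤ Λ := by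
    rw [hΛ]; push_cast; nlinarith
  have hΛp : 2 * (1 + Real.log p) ≤ Λ := by
    rw [hΛ]; push_cast
    have : 0 ≤ (K : ℝ) * Real.log p := by positivity
    nlinarith
  have hΛ0 : 0 ≤ Λ := by linarith
  have h2 : M * (2 * (1 + Real.log T)) * (2 * (1 + Real.log p)) ^ k ≤ Λ ^ (k + 1) * M := by
    have h3 : (2 * (1 + Real.log p)) ^ k ≤ Λ ^ k := pow_le_pow_left₀ (by linarith) hΛp k
    have h4 : M * (2 * (1 + Real.log T)) ≤ M * Λ := mul_le_mul_of_nonneg_left hΛT hM0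
    calc _ ≤ (M * Λ) * Λ ^ k := mul_le_mul h4 h3 (by positivity) (mul_nonneg hM0 hΛ0)
      _ = _ := by ring
  -- the main term
  set y : Fin (k + 1) → ℝ := Fin.cons ((L : ℝ) / q) (fun i => (D i : ℝ) / q) with hy
  set z : Fin (k + 1) → ℝ := Fin.cons (((seg a L q (ρ 0 - b)).card : ℕ) : ℝ)
    (fun i => (((seg (c i) (D i) q (ρ i.succ)).card : ℕ) : ℝ)) with hz
  have hyn : ∀ j, 0 ≤ y j ∧ |z j - y j| ≤ (q / Y) * y j := by
    have hgen : ∀ (a L : ℕ) (ρ : ℤ), Y ≤ L → |((seg a L q ρ).card : ℝ) - (L : ℝ) / q| ≤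
        (q / Y) * ((L : ℝ) / q) := by
      intro a L ρ hL
      refine (seg_card a L q hq ρ).trans ?_
      have : (q / Y) * ((L : ℝ) / q) = L / Y := by field_simp
      rw [this, le_div_iff₀ hY]
      linarith
    intro j
    refine Fin.cases ?_ (fun i => ?_) j
    · simp only [hy, hz, Fin.cons_zero]
      exact ⟨by positivity, hgen a L _ hL⟩
    · simp only [hy, hz, Fin.cons_succ]
      exact ⟨by positivity, hgen _ _ _ (hD i)⟩
  have hqY0 : 0 ≤ (q : ℝ) / Y := by positivity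
  have hqY1 : (q : ℝ) / Y ≤ 1 := by rw [div_le_one hY]; exact hqY
  have h5 := prod_err univ y z (q / Y) hqY0 (fun j _ => (hyn j).1) (fun j _ => (hyn j).2)
  rw [Fin.prod_univ_succ, Fin.prod_univ_succ, card_univ, Fintype.card_fin] at h5
  simp only [hy, hz, Fin.cons_zero, Fin.cons_succ] at h5
  have h6 : (L : ℝ) / q * ∏ i, (D i : ℝ) / q = (L * ∏ i, (D i : ℝ)) / (q : ℝ) ^ (k + 1) := by
    rw [prod_div_distrib, prod_const, card_univ, Fintype.card_fin, pow_succ]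
    field_simp
  rw [h6] at h5
  set W : ℝ := L * ∏ i, (D i : ℝ) with hW
  have hW0 : 0 ≤ W := by positivity
  have h7 : (1 + (q : ℝ) / Y) ^ (k + 1) - 1 ≤ 2 ^ (k + 1) * (q / Y) := by
    have := one_add_pow_le _ hqY0 hqY1 (k + 1)
    linarith
  have h8 : W / (q : ℝ) ^ (k + 1) ≤ W := div_le_self hW0 (one_le_pow₀ (by exact_mod_cast hq))
  have h9 : ((1 + (q : ℝ) / Y) ^ (k + 1) - 1) * (W / (q : ℝ) ^ (k + 1)) ≤
      2 ^ (k + 1) * (q / Y) * W := by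
    have h10 : 0 ≤ W / (q : ℝ) ^ (k + 1) := by positivity
    calc _ ≤ 2 ^ (k + 1) * (q / Y) * (W / (q : ℝ) ^ (k + 1)) := mul_le_mul_of_nonneg_right h7 h10
      _ ≤ _ := mul_le_mul_of_nonneg_left h8 (by positivity)
  have h11 := h5.trans h9
  have hpk : (0 : ℝ) < (p : ℝ) ^ k := by positivity
  have h12 : |(((seg a L q (ρ 0 - b)).card : ℕ) : ℝ) *
      (∏ i, (((seg (c i) (D i) q (ρ i.succ)).card : ℕ) : ℝ)) / (p : ℝ) ^ k -
      W / (p : ℝ) ^ k / (q : ℝ) ^ (k + 1)| ≤ 2 ^ (k + 1) * (q / Y) * (W / (p : ℝ) ^ k) := by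
    have e1 : (((seg a L q (ρ 0 - b)).card : ℕ) : ℝ) *
      (∏ i, (((seg (c i) (D i) q (ρ i.succ)).card : ℕ) : ℝ)) / (p : ℝ) ^ k -
      W / (p : ℝ) ^ k / (q : ℝ) ^ (k + 1) = ((((seg a L q (ρ 0 - b)).card : ℕ) : ℝ) *
      (∏ i, (((seg (c i) (D i) q (ρ i.succ)).card : ℕ) : ℝ)) - W / (q : ℝ) ^ (k + 1)) /
      (p : ℝ) ^ k := by
      rw [sub_div]; congr 1; rw [div_div, div_div, mul_comm]
    rw [e1, abs_div, abs_of_pos hpk, div_le_iff₀ hpk]
    refine h11.trans (le_of_eq ?_)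
    field_simp
  have h13 := abs_le.mp (h1.trans h2)
  have h14 := abs_le.mp h12
  rw [abs_le]
  constructor <;> linarith [h13.1, h13.2, h14.1, h14.2]

/-- the core theorem -/
theorem core (k K : ℕ) (δ : ℝ) (hδ : 0 < δ) (hδ1 : δ ≤ 1) : ∃ κ : ℝ, 0 < κ ∧
    ∀ᶠ P : ℝ in atTop, κ * ff P ≤ (Real.log P) ^ 2 ∧ ∀ p : ℕ, (p : ℝ) = P →
    ∀ T : ℕ, 1 ≤ T → T ≤ p ^ K → ∀ n : ℕ → Fin k → ℕ, (∀ x < T, ∀ i, n x i < p) →
    ∀ M : ℝ, 1 ≤ M → (∀ c < T, ∀ h : Fin k → ℕ, (∀ i, h i < p) → h ≠ 0 →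
      ‖∑ x ∈ range T, e ((c : ℝ) * x / T) * ∏ i, e ((h i : ℝ) * n x i / p)‖ ≤ M) →
    ∀ (a b L : ℕ) (c D : Fin k → ℕ), a + L ≤ T → (∀ i, c i + D i ≤ p) →
    P ^ δ ≤ L → (∀ i, P ^ δ ≤ D i) → M * P ^ ((k : ℝ) + δ) ≤ L * ∏ i, (D i : ℝ) →
    ∀ G : Finset ℕ, (∀ x, a ≤ x → x < a + L → (∀ i, c i ≤ n x i ∧ n x i < c i + D i) →
      (∀ m : ℤ, (|(m : ℝ) - (b + x)| ≤ κ * ff P ∨ ∃ i, |(m : ℝ) - n x i| ≤ κ * ff P) →
        ∃ q : ℕ, q.Prime ∧ (q : ℝ) ≤ P ^ (δ / 4) ∧ (q : ℤ) ∣ m) → x ∈ G) →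
    (L * ∏ i, (D i : ℝ)) * P ^ (-((k : ℝ) + δ / 2)) ≤ G.card := by
  classical
  set r : ℕ := k + 1 with hr
  have hr1 : 1 ≤ r := by omega
  have hrR : (1 : ℝ) ≤ r := by exact_mod_cast hr1
  set η : ℝ := δ / (8 * r) with hη
  have hη0 : 0 < η := by positivity
  have hη8 : η * (8 * r) = δ := by rw [hη]; field_simp
  have hηδ : η ≤ δ / 8 := by
    rw [hη]
    gcongr
    linarith
  have hη1 : η ≤ 1 := by linarith
  obtain ⟨κ, hκ, X₀, hc⟩ := crit_many r hr1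
  refine ⟨κ * (η / 32), by positivity, ?_⟩
  filter_upwards [ff_compare η hη0 hη1, (tendsto_rpow_atTop hη0).eventually_ge_atTop X₀,
    ev_core r (K + 1) hr1 δ hδ, eventually_ge_atTop (1 : ℝ)] with P hff hX hev hP1
  have hP0 : 0 < P := by linarith
  obtain ⟨hlog, hcrit⟩ := hc (P ^ η) hX
  have hmono : ∀ x y : ℝ, x ≤ y → P ^ x ≤ P ^ y := fun x y h =>
    Real.rpow_le_rpow_of_exponent_le hP1 h
  have hffP : κ * (η / 32) * ff P ≤ κ * ff (P ^ η) := by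
    have h5 := (hff.2 (P ^ η) le_rfl (by
      calc P ^ η ≤ P ^ (2 : ℝ) := hmono _ _ (by linarith)
        _ = P ^ 2 := by norm_num)).1
    calc κ * (η / 32) * ff P = κ * (η / 32 * ff P) := by ring
      _ ≤ _ := mul_le_mul_of_nonneg_left h5 hκ.le
  refine ⟨?_, ?_⟩
  · have h1 : Real.log (P ^ η) = η * Real.log P := Real.log_rpow hP0 _
    rw [h1] at hlog
    have h2 : 0 ≤ Real.log P := Real.log_nonneg hP1
    have h3 : (η * Real.log P) ^ 2 ≤ (Real.log P) ^ 2 := by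
      apply pow_le_pow_left₀ (by positivity)
      nlinarith
    linarith
  intro p hpP T hT hTp n hn M hM1 hM a b L c D ha hcD hL hD hLD G hG
  subst hpP
  have hp1 : 1 ≤ p := by exact_mod_cast hP1
  set W : ℝ := (L * ∏ i, (D i : ℝ)) / (p : ℝ) ^ k with hW
  have hpk : (0 : ℝ) < (p : ℝ) ^ k := by positivity
  have hWM : M * (p : ℝ) ^ δ ≤ W := by
    rw [hW, le_div_iff₀ hpk, mul_assoc]
    refine le_trans (le_of_eq ?_) hLD
    rw [Real.rpow_add hP0, Real.rpow_natCast]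
    ring
  have hW0 : 0 < W := lt_of_lt_of_le (by positivity) hWM
  set s : Finset ℕ := (Ico a (a + L)).filter fun x => ∀ i, n x i ∈ Ico (c i) (c i + D i) with hs
  set v : ℕ → Fin r → ℤ := fun x =>
    (Fin.cons ((b : ℤ) + x) (fun i => (n x i : ℤ)) : Fin (k + 1) → ℤ)
    with hv
  set Y : ℝ := (p : ℝ) ^ δ with hYd
  have hY0 : 0 < Y := Real.rpow_pos_of_pos hP0 _
  set Λ : ℝ := (2 * (1 + ((K + 1 : ℕ) : ℝ) * Real.log p)) ^ r with hΛ
  have hΛ0 : 0 ≤ Λ := by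
    have := Real.log_nonneg hP1
    positivity
  set E : ℝ := ((p : ℝ) ^ η) ^ (-(2 * (r : ℝ))) with hE
  have hE' : E = (p : ℝ) ^ (-(δ / 4)) := by
    rw [hE, ← Real.rpow_mul hP0.le]
    congr 1
    linarith
  have hE0 : 0 < E := Real.rpow_pos_of_pos (Real.rpow_pos_of_pos hP0 _) _
  have hE1 : E ≤ 1 := by
    rw [hE']
    exact Real.rpow_le_one_of_one_le_of_nonpos hP1 (by linarith)
  have hcnt : ∀ q : ℕ, 1 ≤ q → (q : ℝ) ≤ (p : ℝ) ^ (δ / 4) → ∀ ρ : Fin r → ℤ,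
      |(((s.filter fun x => ∀ j, (q : ℤ) ∣ v x j - ρ j).card : ℕ) : ℝ) - W / (q : ℝ) ^ r| ≤
        W * (E / 8) := by
    intro q hq hqX ρ
    have h1 := box_count k K T p hT hp1 hTp n hn M hM (by linarith) a L c D ha hcD Y hY0 hL hD q hq
      (hqX.trans (hmono _ _ (by linarith))) b ρ
    refine h1.trans ?_
    have h2 : (q : ℝ) / Y ≤ (p : ℝ) ^ (-(3 * δ / 4)) := by
      rw [div_le_iff₀ hY0, hYd, ← Real.rpow_add hP0]
      refine hqX.trans (le_of_eq ?_)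
      congr 1
      ring
    have h3 : M ≤ W * (p : ℝ) ^ (-δ) := by
      rw [Real.rpow_neg hP0.le, ← div_eq_mul_inv, le_div_iff₀ hY0]
      exact hWM
    have h4 := hev.1
    rw [← hE'] at h4
    calc 2 ^ (k + 1) * ((q : ℝ) / Y) * W + (2 * (1 + ((K + 1 : ℕ) : ℝ) * Real.log p)) ^ (k + 1) * M
        ≤ 2 ^ r * (p : ℝ) ^ (-(3 * δ / 4)) * W + Λ * (W * (p : ℝ) ^ (-δ)) := by
          refine add_le_add ?_ (mul_le_mul_of_nonneg_left h3 hΛ0)
          refine mul_le_mul_of_nonneg_right ?_ hW0.le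
          exact mul_le_mul_of_nonneg_left h2 (by positivity)
      _ = W * (2 ^ r * (p : ℝ) ^ (-(3 * δ / 4)) + Λ * (p : ℝ) ^ (-δ)) := by ring
      _ ≤ W * (E / 8) := mul_le_mul_of_nonneg_left h4 hW0.le
  have hscard : |(s.card : ℝ) - W| ≤ W * (E / 8) := by
    have h1 := hcnt 1 le_rfl (by
      push_cast
      exact Real.one_le_rpow hP1 (by positivity)) (fun _ => 0)
    have h2 : (s.filter fun x => ∀ j, ((1 : ℕ) : ℤ) ∣ v x j - (fun _ => (0 : ℤ)) j) = s := by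
      rw [filter_eq_self]
      intro x _ j
      simp
    rw [h2] at h1
    simpa using h1
  have hs1 := abs_le.mp hscard
  have hWE : W * (E / 8) ≤ W * (1 / 8) := mul_le_mul_of_nonneg_left (by linarith) hW0.le
  have hsW : W / 2 ≤ s.card := by linarith [hs1.1]
  have hsne : s.Nonempty := by
    rw [← card_pos]
    have : (0 : ℝ) < s.card := by linarith
    exact_mod_cast this
  have hfin := hcrit ℕ s v hsne (by
    intro q hq hqX ρ
    have hq' : (q : ℝ) ≤ (p : ℝ) ^ (δ / 4) := by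
      refine hqX.trans ?_
      rw [← Real.rpow_mul hP0.le]
      apply hmono
      nlinarith
    have h1 := hcnt q hq hq' ρ
    have hq1 : (1 : ℝ) ≤ (q : ℝ) ^ r := one_le_pow₀ (by exact_mod_cast hq)
    have h2 : |(s.card : ℝ) / (q : ℝ) ^ r - W / (q : ℝ) ^ r| ≤ W * (E / 8) := by
      rw [← sub_div, abs_div, abs_of_pos (by linarith : (0 : ℝ) < (q : ℝ) ^ r)]
      exact (div_le_self (abs_nonneg _) hq1).trans hscard
    have h4 : W * (E / 8) + W * (E / 8) ≤ s.card * E / 2 := by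
      have := mul_le_mul_of_nonneg_right hsW hE0.le
      linarith
    rw [abs_sub_comm] at h2
    exact (abs_sub_le _ _ _).trans ((add_le_add h1 h2).trans h4)) G (by
    intro x hx hgood
    rw [hs, mem_filter, mem_Ico] at hx
    refine hG x hx.1.1 hx.1.2 (fun i => mem_Ico.1 (hx.2 i)) ?_
    intro m hm
    have hsmall : ((p : ℝ) ^ η) ^ (1 / 10 : ℝ) ≤ (p : ℝ) ^ (δ / 4) := by
      rw [← Real.rpow_mul hP0.le]
      apply hmono
      nlinarith
    rcases hm with hm | ⟨i, hm⟩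
    · obtain ⟨q, hq, hqX, hqm⟩ := hgood 0 m (by
        simp only [hv, Fin.cons_zero]
        push_cast
        linarith)
      exact ⟨q, hq, hqX.trans hsmall, hqm⟩
    · obtain ⟨q, hq, hqX, hqm⟩ := hgood i.succ m (by
        simp only [hv, Fin.cons_succ]
        push_cast
        linarith)
      exact ⟨q, hq, hqX.trans hsmall, hqm⟩)
  refine le_trans ?_ hfin
  have h1 : (L * ∏ i, (D i : ℝ)) * (p : ℝ) ^ (-((k : ℝ) + δ / 2)) = W * (p : ℝ) ^ (-(δ / 2)) := by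
    rw [hW, neg_add, Real.rpow_add hP0, Real.rpow_neg hP0.le (k : ℝ), Real.rpow_natCast]
    field_simp
  rw [h1]
  have h2 : (p : ℝ) ^ (-(δ / 2)) ≤ E / 16 := by
    have h3 : (p : ℝ) ^ (-(δ / 2)) * (p : ℝ) ^ (δ / 4) = E := by
      rw [hE', ← Real.rpow_add hP0]; congr 1; ring
    have h4 : 0 < (p : ℝ) ^ (-(δ / 2)) := Real.rpow_pos_of_pos hP0 _
    have h5 := mul_le_mul_of_nonneg_left hev.2 h4.le
    linarith
  calc W * (p : ℝ) ^ (-(δ / 2)) ≤ W * (E / 16) := mul_le_mul_of_nonneg_left h2 hW0.le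
    _ = W / 2 * E / 8 := by ring
    _ ≤ s.card * E / 8 := by gcongr

end Pool.Agent.N286.DE
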