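import Pool.Agent.N286.DE.SumA
import Pool.Agent.H435R3.HBK.App

set_option autoImplicit false

/-! # Exponential sums over small multiplicative subgroups -/

namespace Pool.Agent.N286.DE

open Finset
open Pool.Agent.Helper170.Weyl (e e_add norm_e conj_e e_int e_nat_mul geom_bound)

section

variable {p : ℕ} [Fact p.Prime]

/-- Parseval's identity -/
lemma parseval (r : ZMod p → ℝ) :
    ∑ b : ZMod p, ‖∑ u : ZMod p, (r u : ℂ) * ZMod.stdAddChar (N := p) (b * u)‖ ^ 2 = p * ∑ u, r u ^ 2 := by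
  classical
  have h1 : ∀ b ∈ (univ : Finset (ZMod p)),
      ((‖∑ u : ZMod p, (r u : ℂ) * ZMod.stdAddChar (N := p) (b * u)‖ ^ 2 : ℝ) : ℂ) =
      ∑ u : ZMod p, ∑ u' : ZMod p, ((r u : ℂ) * r u') * ZMod.stdAddChar (N := p) (b * (u - u')) := by
    intro b _
    push_cast
    rw [← Complex.mul_conj', map_sum, sum_mul_sum]
    refine sum_congr rfl fun u _ => sum_congr rfl fun u' _ => ?_
    rw [map_mul (starRingEnd ℂ), Complex.conj_ofReal, ← AddChar.map_neg_eq_conj, mul_sub, sub_eq_add_neg,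
      AddChar.map_add_eq_mul]
    ring
  have h2 : ((∑ b : ZMod p, ‖∑ u : ZMod p, (r u : ℂ) * ZMod.stdAddChar (N := p) (b * u)‖ ^ 2 : ℝ) : ℂ) =
      ((p * ∑ u, r u ^ 2 : ℝ) : ℂ) := by
    rw [Complex.ofReal_sum, sum_congr rfl h1, sum_comm]
    have h3 : ∀ u ∈ (univ : Finset (ZMod p)), ∑ b : ZMod p, ∑ u' : ZMod p,
        ((r u : ℂ) * r u') * ZMod.stdAddChar (N := p) (b * (u - u')) = p * (r u : ℂ) ^ 2 := by
      intro u _
      rw [sum_comm]
      have h4 : ∀ u' ∈ (univ : Finset (ZMod p)), ∑ b : ZMod p,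
          ((r u : ℂ) * r u') * ZMod.stdAddChar (N := p) (b * (u - u')) = if u = u' then p * (r u : ℂ) ^ 2 else 0 := by
        intro u' _
        rw [← mul_sum, AddChar.sum_mulShift _ (ZMod.isPrimitive_stdAddChar p), ZMod.card]
        by_cases h : u = u'
        · subst h
          rw [sub_self, if_pos rfl, if_pos rfl]
          ring
        · rw [if_neg h, if_neg (sub_ne_zero.2 h)]
          simp
      rw [sum_congr rfl h4, sum_ite_eq, if_pos (mem_univ _)]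
    rw [sum_congr rfl h3, ← mul_sum]
    push_cast
    rfl
  exact_mod_cast h2

/-- the number of representations as a difference -/
noncomputable def rep (H : Finset (ZMod p)) (u : ZMod p) : ℝ :=
  (((H ×ˢ H).filter fun w => w.1 - w.2 = u).card : ℝ)

lemma sum_rep {R : Type*} [AddCommGroup R] [Module ℝ R] (H : Finset (ZMod p)) (f : ZMod p → R) :
    ∑ w ∈ H ×ˢ H, f (w.1 - w.2) = ∑ u : ZMod p, rep H u • f u := by
  classical
  rw [← sum_fiberwise (s := H ×ˢ H) (g := fun w => w.1 - w.2)]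
  refine sum_congr rfl fun u _ => ?_
  rw [sum_congr rfl (g := fun _ => f u) (fun w hw => by rw [(mem_filter.1 hw).2]), sum_const]
  unfold rep
  rw [Nat.cast_smul_eq_nsmul]

lemma fourth (H : Finset (ZMod p)) :
    ∑ b : ZMod p, ‖∑ y ∈ H, ZMod.stdAddChar (N := p) (b * y)‖ ^ 4 = p * ∑ u, rep H u ^ 2 := by
  rw [← parseval]
  refine sum_congr rfl fun b _ => ?_
  have h1 : ((‖∑ y ∈ H, ZMod.stdAddChar (N := p) (b * y)‖ ^ 2 : ℝ) : ℂ) = ∑ u : ZMod p, (rep H u : ℂ) * ZMod.stdAddChar (N := p) (b * u) := by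
    push_cast
    rw [← Complex.mul_conj', map_sum, sum_mul_sum, ← sum_product']
    have h2 := sum_rep H (fun u => ZMod.stdAddChar (N := p) (b * u))
    have h3 : ∑ u : ZMod p, (rep H u : ℂ) * ZMod.stdAddChar (N := p) (b * u) = ∑ u : ZMod p, rep H u • ZMod.stdAddChar (N := p) (b * u) :=
      sum_congr rfl fun u _ => by rw [Complex.real_smul]
    rw [h3, ← h2]
    refine sum_congr rfl fun w _ => ?_
    rw [← AddChar.map_neg_eq_conj, mul_sub, sub_eq_add_neg, AddChar.map_add_eq_mul]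
  rw [← h1, Complex.norm_real, Real.norm_eq_abs, abs_of_nonneg (by positivity)]
  ring

variable (g : ZMod p) (T : ℕ) (c : ℕ)

/-- the twisted sum over the subgroup -/
noncomputable def S (a : ZMod p) : ℂ := ∑ x ∈ range T, e ((c : ℝ) * x / T) * ZMod.stdAddChar (N := p) (a * g ^ x)

lemma S_shift (hT : 1 ≤ T) (hg : g ^ T = 1) (a : ZMod p) : ‖S g T c (a * g)‖ = ‖S g T c a‖ := by
  set f : ℕ → ℂ := fun x => e ((c : ℝ) * x / T) * ZMod.stdAddChar (N := p) (a * g ^ x) with hf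
  have hT0 : (T : ℝ) ≠ 0 := by exact_mod_cast (by omega : T ≠ 0)
  have h1 : S g T c (a * g) = e (-((c : ℝ) / T)) * ∑ x ∈ range T, f (x + 1) := by
    unfold S
    rw [mul_sum]
    refine sum_congr rfl fun x _ => ?_
    rw [hf]
    simp only
    rw [mul_assoc a, ← pow_succ', ← mul_assoc, ← e_add]
    congr 2
    push_cast
    ring
  have h2 : f T = f 0 := by
    rw [hf]
    simp only
    rw [hg, pow_zero]
    have h3 : (c : ℝ) * T / T = ((c : ℤ) : ℝ) := by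
      push_cast
      field_simp
    have h4 : (c : ℝ) * ((0 : ℕ) : ℝ) / T = ((0 : ℤ) : ℝ) := by simp
    rw [h3, h4, e_int, e_int]
  have h3 : ∑ x ∈ range T, f (x + 1) = ∑ x ∈ range T, f x := by
    have h4 := sum_range_succ f T
    have h5 := sum_range_succ' f T
    rw [h2] at h4
    have h6 := h4.symm.trans h5
    exact (add_right_cancel h6).symm
  rw [h1, h3, norm_mul, norm_e, one_mul]
  rfl

lemma S_orbit (hT : 1 ≤ T) (hg : g ^ T = 1) (a : ZMod p) (y : ℕ) :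
    ‖S g T c (a * g ^ y)‖ = ‖S g T c a‖ := by
  induction y with
  | zero => rw [pow_zero, mul_one]
  | succ y ih => rw [pow_succ, ← mul_assoc, S_shift g T c hT hg, ih]

/-- the subgroup -/
noncomputable def H [DecidableEq (ZMod p)] : Finset (ZMod p) := (range T).image fun x => g ^ x

lemma pow_inj (hT : 1 ≤ T) (hg : g ^ T = 1) (hfree : ∀ x, 0 < x → x < T → g ^ x ≠ 1) :
    Set.InjOn (fun x => g ^ x) (range T : Finset ℕ) := by
  have hg0 : g ≠ 0 := by
    rintro rfl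
    rw [zero_pow (by omega)] at hg
    exact zero_ne_one hg
  have key : ∀ x y : ℕ, x < y → y < T → g ^ x ≠ g ^ y := by
    intro x y hxy hyT heq
    apply hfree (y - x) (by omega) (by omega)
    have h1 : g ^ (y - x) * g ^ x = 1 * g ^ x := by
      rw [← pow_add, Nat.sub_add_cancel hxy.le, one_mul, heq]
    exact mul_right_cancel₀ (pow_ne_zero _ hg0) h1
  intro x hx y hy hxy
  have hx' := mem_range.1 (mem_coe.1 hx)
  have hy' := mem_range.1 (mem_coe.1 hy)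
  rcases lt_trichotomy x y with h1 | h1 | h1
  · exact absurd hxy (key x y h1 hy')
  · exact h1
  · exact absurd hxy.symm (key y x h1 hx')

/-- the sum is bounded by an average of the untwisted sums -/
lemma S_le (hT : 1 ≤ T) (hg : g ^ T = 1) (hfree : ∀ x, 0 < x → x < T → g ^ x ≠ 1) (a : ZMod p) :
    (T : ℝ) * ‖S g T c a‖ ^ 2 ≤ ∑ u : ZMod p, rep (H g T) u * ‖∑ y ∈ H g T, ZMod.stdAddChar (N := p) (a * u * y)‖ := by
  classical
  have hinj := pow_inj g T hT hg hfree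
  have h0 : (T : ℝ) * ‖S g T c a‖ ^ 2 = ∑ y ∈ range T, ‖S g T c (a * g ^ y)‖ ^ 2 := by
    rw [sum_congr rfl fun y _ => by rw [S_orbit g T c hT hg a y], sum_const, card_range,
      nsmul_eq_mul]
  have h1 : ∀ y ∈ range T, ((‖S g T c (a * g ^ y)‖ ^ 2 : ℝ) : ℂ) =
      ∑ x ∈ range T, ∑ x' ∈ range T, (e ((c : ℝ) * x / T) * e (-((c : ℝ) * x' / T))) *
        ZMod.stdAddChar (N := p) (a * (g ^ x - g ^ x') * g ^ y) := by
    intro y _
    push_cast
    rw [← Complex.mul_conj']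
    unfold S
    rw [map_sum, sum_mul_sum]
    refine sum_congr rfl fun x _ => sum_congr rfl fun x' _ => ?_
    rw [map_mul (starRingEnd ℂ), conj_e, ← AddChar.map_neg_eq_conj]
    have h2 : a * (g ^ x - g ^ x') * g ^ y = a * g ^ y * g ^ x + -(a * g ^ y * g ^ x') := by ring
    rw [h2, AddChar.map_add_eq_mul]
    ring
  have h2 : (((T : ℝ) * ‖S g T c a‖ ^ 2 : ℝ) : ℂ) =
      ∑ x ∈ range T, ∑ x' ∈ range T, (e ((c : ℝ) * x / T) * e (-((c : ℝ) * x' / T))) *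
        ∑ y ∈ H g T, ZMod.stdAddChar (N := p) (a * (g ^ x - g ^ x') * y) := by
    rw [h0, Complex.ofReal_sum, sum_congr rfl h1, sum_comm]
    refine sum_congr rfl fun x _ => ?_
    rw [sum_comm]
    refine sum_congr rfl fun x' _ => ?_
    rw [← mul_sum]
    congr 1
    unfold H
    rw [sum_image hinj]
  have h3 : (T : ℝ) * ‖S g T c a‖ ^ 2 = ‖(((T : ℝ) * ‖S g T c a‖ ^ 2 : ℝ) : ℂ)‖ := by
    rw [Complex.norm_real, Real.norm_eq_abs, abs_of_nonneg (by positivity)]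
  rw [h3, h2]
  have h4 : ‖∑ x ∈ range T, ∑ x' ∈ range T, (e ((c : ℝ) * x / T) * e (-((c : ℝ) * x' / T))) *
        ∑ y ∈ H g T, ZMod.stdAddChar (N := p) (a * (g ^ x - g ^ x') * y)‖ ≤
      ∑ x ∈ range T, ∑ x' ∈ range T, ‖∑ y ∈ H g T, ZMod.stdAddChar (N := p) (a * (g ^ x - g ^ x') * y)‖ := by
    refine (norm_sum_le _ _).trans (sum_le_sum fun x _ => (norm_sum_le _ _).trans
      (sum_le_sum fun x' _ => ?_))
    rw [norm_mul, norm_mul, norm_e, norm_e, one_mul, one_mul]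
  refine h4.trans (le_of_eq ?_)
  have h5 := sum_rep (H g T) (fun u => ‖∑ y ∈ H g T, ZMod.stdAddChar (N := p) (a * u * y)‖)
  simp only [smul_eq_mul] at h5
  rw [← h5, sum_product]
  conv_rhs => rw [show H g T = (range T).image fun x => g ^ x from rfl]
  rw [sum_image hinj]
  refine sum_congr rfl fun x _ => ?_
  rw [sum_image hinj]
  rfl

lemma H_card (hT : 1 ≤ T) (hg : g ^ T = 1) (hfree : ∀ x, 0 < x → x < T → g ^ x ≠ 1) :
    (H g T).card = T := by
  classical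
  unfold H
  rw [card_image_of_injOn (pow_inj g T hT hg hfree), card_range]

/-- the additive energy of a small subgroup -/
lemma energy (hT : 1 ≤ T) (hg : g ^ T = 1) (hfree : ∀ x, 0 < x → x < T → g ^ x ≠ 1)
    (hTp : T ^ 4 < p ^ 3) :
    ∑ u, rep (H g T) u ^ 2 ≤ 8 * (T : ℝ) ^ (8 / 3 : ℝ) := by
  classical
  have hT1 : (1 : ℝ) ≤ T := by exact_mod_cast hT
  have hT0 : (0 : ℝ) < T := by linarith
  have hcard := H_card g T hT hg hfree
  have h0 : ∀ u, 0 ≤ rep (H g T) u := fun u => by unfold rep; positivity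
  have hsum : ∑ u, rep (H g T) u = (T : ℝ) ^ 2 := by
    have h1 := sum_rep (R := ℝ) (H g T) (fun _ => (1 : ℝ))
    simp only [smul_eq_mul, mul_one] at h1
    rw [← h1, sum_const, card_product, hcard]
    simp [pow_two]
  have hzero : rep (H g T) 0 = T := by
    unfold rep
    have h1 : ((H g T ×ˢ H g T).filter fun w => w.1 - w.2 = 0) = (H g T).image fun y => (y, y) := by
      ext w
      rw [mem_filter, mem_product, mem_image]
      constructor
      · rintro ⟨⟨h1, _⟩, h3⟩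
        exact ⟨w.1, h1, Prod.ext rfl (sub_eq_zero.1 h3)⟩
      · rintro ⟨y, hy, rfl⟩
        exact ⟨⟨hy, hy⟩, sub_self _⟩
    rw [h1, card_image_of_injective _ (fun x y h => congrArg Prod.fst h), hcard]
  have hrep : ∀ u, u ≠ 0 → rep (H g T) u ≤ 7 * (T : ℝ) ^ (2 / 3 : ℝ) := by
    intro u hu
    refine Pool.Agent.H435R3.HBK.rep_le T hT hTp (H g T) 1 one_ne_zero ?_ u hu
    intro b hb
    unfold H at hb
    obtain ⟨x, _, rfl⟩ := mem_image.1 hb
    rw [← pow_mul, mul_comm, pow_mul, hg, one_pow]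
  have h23 : (T : ℝ) ^ (2 / 3 : ℝ) * (T : ℝ) ^ 2 = (T : ℝ) ^ (8 / 3 : ℝ) := by
    rw [← Real.rpow_natCast, ← Real.rpow_add hT0]; norm_num
  have h2 : ∀ u ∈ (univ : Finset (ZMod p)), rep (H g T) u ^ 2 ≤
      (if u = 0 then (T : ℝ) ^ 2 else 0) + 7 * (T : ℝ) ^ (2 / 3 : ℝ) * rep (H g T) u := by
    intro u _
    split_ifs with h
    · subst h
      rw [hzero]
      have : 0 ≤ 7 * (T : ℝ) ^ (2 / 3 : ℝ) * T := by positivity
      linarith
    · rw [zero_add, pow_two]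
      exact mul_le_mul_of_nonneg_right (hrep u h) (h0 u)
  refine (sum_le_sum h2).trans ?_
  rw [sum_add_distrib, sum_ite_eq', if_pos (mem_univ _), ← mul_sum, hsum]
  have h3 : (T : ℝ) ^ 2 ≤ (T : ℝ) ^ (8 / 3 : ℝ) := by
    rw [← h23]
    have := Real.one_le_rpow hT1 (show (0 : ℝ) ≤ 2 / 3 by norm_num)
    nlinarith [sq_nonneg (T : ℝ)]
  have h4 : 7 * (T : ℝ) ^ (2 / 3 : ℝ) * (T : ℝ) ^ 2 = 7 * (T : ℝ) ^ (8 / 3 : ℝ) := by
    rw [mul_assoc, h23]
  linarith

/-- the bound for small subgroups -/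
theorem S_bound (hT : 1 ≤ T) (hg : g ^ T = 1) (hfree : ∀ x, 0 < x → x < T → g ^ x ≠ 1)
    (hTp : T ^ 4 < p ^ 3) (a : ZMod p) (ha : a ≠ 0) :
    ‖S g T c a‖ ≤ 2 * ((p : ℝ) ^ (1 / 8 : ℝ) * (T : ℝ) ^ (2 / 3 : ℝ)) := by
  classical
  have hT1 : (1 : ℝ) ≤ T := by exact_mod_cast hT
  have hT0 : (0 : ℝ) < T := by linarith
  have hp0 : (0 : ℝ) < p := by exact_mod_cast (Fact.out : p.Prime).pos
  set K : ZMod p → ℝ := fun u => ‖∑ y ∈ H g T, ZMod.stdAddChar (N := p) (a * u * y)‖ with hK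
  set r : ZMod p → ℝ := rep (H g T) with hr
  set E : ℝ := ∑ u, r u ^ 2 with hE
  have hr0 : ∀ u, 0 ≤ r u := fun u => by rw [hr]; unfold rep; positivity
  have hE0 : 0 ≤ E := sum_nonneg fun u _ => by positivity
  have hsum : ∑ u, r u = (T : ℝ) ^ 2 := by
    have h1 := sum_rep (R := ℝ) (H g T) (fun _ => (1 : ℝ))
    simp only [smul_eq_mul, mul_one] at h1
    rw [hr, ← h1, sum_const, card_product, H_card g T hT hg hfree]
    simp [pow_two]
  have hK4 : ∑ u, K u ^ 4 = p * E := by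
    rw [hE, hr, ← fourth]
    exact Fintype.sum_equiv (Equiv.mulLeft₀ a ha) _ _ (fun u => rfl)
  have h1 : (∑ u, r u * K u) ^ 2 ≤ (∑ u, r u) * ∑ u, r u * K u ^ 2 :=
    sum_sq_le_sum_mul_sum_of_sq_eq_mul _ (fun u _ => hr0 u)
      (fun u _ => mul_nonneg (hr0 u) (sq_nonneg _)) (fun u _ => by ring)
  have h2 : (∑ u, r u * K u ^ 2) ^ 2 ≤ (∑ u, r u ^ 2) * ∑ u, K u ^ 4 :=
    sum_sq_le_sum_mul_sum_of_sq_eq_mul _ (fun u _ => sq_nonneg _)
      (fun u _ => by positivity) (fun u _ => by ring)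
  have h3 := S_le g T c hT hg hfree a
  rw [hsum] at h1
  rw [hK4, ← hE] at h2
  have h4 : ((T : ℝ) * ‖S g T c a‖ ^ 2) ^ 2 ≤ (T : ℝ) ^ 2 * ∑ u, r u * K u ^ 2 :=
    (pow_le_pow_left₀ (by positivity) h3 2).trans h1
  have h5 : (((T : ℝ) * ‖S g T c a‖ ^ 2) ^ 2) ^ 2 ≤ ((T : ℝ) ^ 2) ^ 2 * (E * (p * E)) := by
    refine (pow_le_pow_left₀ (by positivity) h4 2).trans ?_
    rw [mul_pow]
    exact mul_le_mul_of_nonneg_left h2 (by positivity)
  have h6 : ‖S g T c a‖ ^ 8 ≤ p * E ^ 2 := by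
    have h7 : (T : ℝ) ^ 4 * ‖S g T c a‖ ^ 8 ≤ (T : ℝ) ^ 4 * (p * E ^ 2) := by
      refine le_trans (le_of_eq ?_) (h5.trans (le_of_eq ?_))
      · ring
      · ring
    exact le_of_mul_le_mul_left h7 (by positivity)
  have h7 : E ^ 2 ≤ (8 * (T : ℝ) ^ (8 / 3 : ℝ)) ^ 2 :=
    pow_le_pow_left₀ hE0 (energy g T hT hg hfree hTp) 2
  have h8 : (2 * ((p : ℝ) ^ (1 / 8 : ℝ) * (T : ℝ) ^ (2 / 3 : ℝ))) ^ 8 =
      256 * (p * (T : ℝ) ^ (16 / 3 : ℝ)) := by
    rw [mul_pow, mul_pow, ← Real.rpow_natCast ((p : ℝ) ^ (1 / 8 : ℝ)) 8,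
      ← Real.rpow_natCast ((T : ℝ) ^ (2 / 3 : ℝ)) 8, ← Real.rpow_mul hp0.le,
      ← Real.rpow_mul hT0.le]
    norm_num
  have h9 : (8 * (T : ℝ) ^ (8 / 3 : ℝ)) ^ 2 = 64 * (T : ℝ) ^ (16 / 3 : ℝ) := by
    rw [mul_pow, ← Real.rpow_natCast ((T : ℝ) ^ (8 / 3 : ℝ)) 2, ← Real.rpow_mul hT0.le]
    norm_num
  refine (pow_le_pow_iff_left₀ (norm_nonneg _) (by positivity) (by norm_num : (8 : ℕ) ≠ 0)).1 ?_
  rw [h8]
  refine h6.trans ?_
  have h10 : (p : ℝ) * E ^ 2 ≤ p * (64 * (T : ℝ) ^ (16 / 3 : ℝ)) := by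
    rw [← h9]
    exact mul_le_mul_of_nonneg_left h7 hp0.le
  have h11 : 0 ≤ (p : ℝ) * (T : ℝ) ^ (16 / 3 : ℝ) := by positivity
  linarith

end

end Pool.Agent.N286.DE
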