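import Pool.Agent.N286.DE.Main
import Pool.Agent.N286.DE.SumB

set_option autoImplicit false

/-! # Orbits of matrices modulo `p` -/

namespace Pool.Agent.N286.DE

open Finset Filter Matrix
open Pool.Agent.H256R2.SC (ff)
open Pool.Agent.W147.PS (ff_compare ev_pow)
open Pool.Agent.Helper170.Weyl (e)

/-- the sums over the orbit, from any starting point -/
lemma orbit_sum {p k : ℕ} [Fact p.Prime] (A : Matrix (Fin k) (Fin k) (ZMod p)) (T : ℕ)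
    (v w : Fin k → ZMod p) (b c : ℕ) (h : Fin k → ℕ) :
    ‖∑ x ∈ range T, e ((c : ℝ) * x / T) *
      ∏ i, e ((h i : ℝ) * ((((A ^ (b + x) *ᵥ v + w) i).val : ℕ) : ℝ) / p)‖ =
    ‖F A T c (fun i => (h i : ZMod p)) (A ^ b *ᵥ v)‖ := by
  rw [← sum_eq A T c h (A ^ b *ᵥ v) w]
  congr 1
  refine sum_congr rfl fun x _ => ?_
  rw [mulVec_mulVec, ← pow_add, add_comm x b]

lemma orbit_ne {p k : ℕ} [Fact p.Prime] (A : Matrix (Fin k) (Fin k) (ZMod p)) (T : ℕ)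
    (hT : 1 ≤ T) (hA : A ^ T = 1) (v : Fin k → ZMod p) (hv : v ≠ 0) (b : ℕ) :
    A ^ b *ᵥ v ≠ 0 := by
  have hAu : IsUnit A := IsUnit.of_pow_eq_one hA (by omega)
  intro h
  apply hv
  refine mulVec_injective_of_isUnit (hAu.pow b) ?_
  rw [h, mulVec_zero]

lemma pow_one_entry {R : Type*} [CommRing R] (A : Matrix (Fin 1) (Fin 1) R) (x : ℕ) :
    (A ^ x) 0 0 = (A 0 0) ^ x := by
  induction x with
  | zero => simp
  | succ x ih =>
    rw [pow_succ, pow_succ, mul_apply, Fin.sum_univ_one, ih]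

lemma pow_one_eq {R : Type*} [CommRing R] (A : Matrix (Fin 1) (Fin 1) R) (x : ℕ)
    (h : (A 0 0) ^ x = 1) : A ^ x = 1 := by
  ext i j
  have hi : i = 0 := Subsingleton.elim _ _
  have hj : j = 0 := Subsingleton.elim _ _
  subst hi
  subst hj
  rw [pow_one_entry, h, one_apply_eq]

lemma F_one {p : ℕ} [Fact p.Prime] (A : Matrix (Fin 1) (Fin 1) (ZMod p)) (T c : ℕ)
    (h u : Fin 1 → ZMod p) : F A T c h u = S (A 0 0) T c (h 0 * u 0) := by
  unfold F S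
  refine sum_congr rfl fun x _ => ?_
  have h1 : (A ^ x *ᵥ u) 0 = (A ^ x) 0 0 * u 0 := by
    rw [mulVec, dotProduct, Fin.sum_univ_one]
  have h2 : h ⬝ᵥ (A ^ x *ᵥ u) = h 0 * (A ^ x *ᵥ u) 0 := by
    rw [dotProduct, Fin.sum_univ_one]
  rw [h2, h1, pow_one_entry]
  congr 2
  ring

/-- the theorem for orbits -/
theorem final (k : ℕ) (δ : ℝ) (hδ : 0 < δ) (hδ1 : δ ≤ 1) :
    ∃ κ : ℝ, 0 < κ ∧ ∃ p₀ : ℕ, ∀ p : ℕ, p.Prime → p₀ ≤ p →
    ∀ (A : Matrix (Fin k) (Fin k) (ZMod p)) (T : ℕ), 1 ≤ T → A ^ T = 1 →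
    (∀ x : ℕ, 0 < x → x < T → IsUnit (A ^ x - 1)) →
    ∀ v w : Fin k → ZMod p, v ≠ 0 →
    ∀ B : ℝ, (B = (p : ℝ) ^ ((k : ℝ) / 2) ∨
      (k = 1 ∧ B = (p : ℝ) ^ (1 / 8 : ℝ) * (T : ℝ) ^ (2 / 3 : ℝ))) →
    ∀ (a L : ℕ) (c D : Fin k → ℕ), L ≤ T → (∀ i, c i + D i ≤ p) →
    (p : ℝ) ^ δ ≤ L → (∀ i, (p : ℝ) ^ δ ≤ D i) →
    B * (p : ℝ) ^ ((k : ℝ) + δ) ≤ L * ∏ i, (D i : ℝ) →
    (L * ∏ i, (D i : ℝ)) * (p : ℝ) ^ (-((k : ℝ) + δ)) ≤
      Set.ncard {x : ℕ | a ≤ x ∧ x < a + L ∧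
        (∀ i, c i ≤ ((A ^ x *ᵥ v + w) i).val ∧ ((A ^ x *ᵥ v + w) i).val < c i + D i) ∧
        ∀ m : ℤ, (|(m : ℝ) - x| ≤ κ * ff p ∨
            ∃ i, |(m : ℝ) - (((A ^ x *ᵥ v + w) i).val : ℕ)| ≤ κ * ff p) →
          ∃ q : ℕ, q.Prime ∧ (q : ℝ) ≤ (p : ℝ) ^ δ ∧ (q : ℤ) ∣ m ∧ (q : ℤ) < m} := by
  obtain ⟨κ, hκ, hmain⟩ := main k k δ hδ hδ1
  obtain ⟨P₀, hP₀⟩ := eventually_atTop.mp (hmain.and
    ((tendsto_rpow_atTop (show (0 : ℝ) < δ / 4 by positivity)).eventually_ge_atTop 2))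
  refine ⟨κ, hκ, ⌈P₀⌉₊, ?_⟩
  intro p hp hp₀ A T hT hA hfree v w hv B hB a L c D hL hcD hLp hDp hLD
  haveI : Fact p.Prime := ⟨hp⟩
  have hp1 : (1 : ℝ) ≤ p := by exact_mod_cast hp.one_lt.le
  have hp0 : (0 : ℝ) < p := by linarith
  have hT1 : (1 : ℝ) ≤ T := by exact_mod_cast hT
  obtain ⟨hm, h2⟩ := hP₀ p ((Nat.le_ceil _).trans (by exact_mod_cast hp₀))
  have hTk := orbit_card A T hT hA hfree v hv
  -- the bound of the complete sums
  obtain ⟨M, hM1, hMB, hM⟩ : ∃ M : ℝ, 1 ≤ M ∧ M ≤ 2 * B ∧ ∀ b : ℕ, ∀ c < T, ∀ h : Fin k → ℕ,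
      (∀ i, h i < p) → h ≠ 0 → ‖∑ x ∈ range T, e ((c : ℝ) * x / T) *
      ∏ i, e ((h i : ℝ) * ((((A ^ (b + x) *ᵥ v + w) i).val : ℕ) : ℝ) / p)‖ ≤ M := by
    have hsq : ∀ b : ℕ, ∀ c < T, ∀ h : Fin k → ℕ,
      (∀ i, h i < p) → h ≠ 0 → ‖∑ x ∈ range T, e ((c : ℝ) * x / T) *
      ∏ i, e ((h i : ℝ) * ((((A ^ (b + x) *ᵥ v + w) i).val : ℕ) : ℝ) / p)‖ ≤
        (p : ℝ) ^ ((k : ℝ) / 2) := by
      intro b c _ h hhp hh
      rw [orbit_sum]
      exact F_bound A T c _ hT hA hfree (cast_ne_zero h hhp hh) _ (orbit_ne A T hT hA v hv b)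
    rcases hB with hB | ⟨hk1, hB⟩
    · refine ⟨(p : ℝ) ^ ((k : ℝ) / 2), Real.one_le_rpow hp1 (by positivity), ?_, hsq⟩
      rw [hB]
      have : 0 < (p : ℝ) ^ ((k : ℝ) / 2) := by positivity
      linarith
    · by_cases hTp : T ^ 4 < p ^ 3
      · refine ⟨2 * ((p : ℝ) ^ (1 / 8 : ℝ) * (T : ℝ) ^ (2 / 3 : ℝ)), ?_, by rw [hB], ?_⟩
        · have h3 : 1 ≤ (p : ℝ) ^ (1 / 8 : ℝ) := Real.one_le_rpow hp1 (by norm_num)
          have h4 : 1 ≤ (T : ℝ) ^ (2 / 3 : ℝ) := Real.one_le_rpow hT1 (by norm_num)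
          nlinarith
        · subst hk1
          intro b c _ h hhp hh
          rw [orbit_sum, F_one]
          have hg : (A 0 0) ^ T = 1 := by
            rw [← pow_one_entry, hA, one_apply_eq]
          have hgf : ∀ x, 0 < x → x < T → (A 0 0) ^ x ≠ 1 := by
            intro x hx hxT h1
            have h3 := hfree x hx hxT
            rw [pow_one_eq A x h1, sub_self] at h3
            exact not_isUnit_zero h3
          refine S_bound (A 0 0) T c hT hg hgf hTp _ (mul_ne_zero ?_ ?_)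
          · have h3 := cast_ne_zero (p := p) h hhp hh
            intro h4
            apply h3
            funext i
            have hi : i = 0 := Subsingleton.elim _ _
            subst hi
            exact h4
          · have h3 := orbit_ne A T hT hA v hv b
            intro h4
            apply h3
            funext i
            have hi : i = 0 := Subsingleton.elim _ _
            subst hi
            exact h4
      · refine ⟨(p : ℝ) ^ ((k : ℝ) / 2), Real.one_le_rpow hp1 (by positivity), ?_, hsq⟩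
        push Not at hTp
        have h3 : (p : ℝ) ^ 3 ≤ (T : ℝ) ^ 4 := by exact_mod_cast hTp
        have h4 : (p : ℝ) ^ (3 / 4 : ℝ) ≤ T := by
          refine (pow_le_pow_iff_left₀ (by positivity) (by positivity)
            (by norm_num : (4 : ℕ) ≠ 0)).1 ?_
          refine le_trans (le_of_eq ?_) h3
          rw [← Real.rpow_natCast, ← Real.rpow_mul hp0.le, ← Real.rpow_natCast]
          norm_num
        have h5 : (p : ℝ) ^ (1 / 2 : ℝ) ≤ (T : ℝ) ^ (2 / 3 : ℝ) := by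
          have h6 : ((p : ℝ) ^ (3 / 4 : ℝ)) ^ (2 / 3 : ℝ) ≤ (T : ℝ) ^ (2 / 3 : ℝ) :=
            Real.rpow_le_rpow (by positivity) h4 (by norm_num)
          refine le_trans (le_of_eq ?_) h6
          rw [← Real.rpow_mul hp0.le]
          norm_num
        rw [hB, hk1]
        have h7 : 1 ≤ (p : ℝ) ^ (1 / 8 : ℝ) := Real.one_le_rpow hp1 (by norm_num)
        have h8 : 0 < (p : ℝ) ^ (1 / 2 : ℝ) := by positivity
        have h9 : (p : ℝ) ^ (((1 : ℕ) : ℝ) / 2) = (p : ℝ) ^ (1 / 2 : ℝ) := by norm_num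
        rw [h9]
        nlinarith
  have hfin := hm p rfl T hT hTk (fun x i => ((A ^ x *ᵥ v + w) i).val)
    (fun x i => ZMod.val_lt _) M hM1 hM a L c D hL hcD hLp hDp (by
      refine le_trans ?_ hLD
      have h3 : (p : ℝ) ^ ((k : ℝ) + δ) = (p : ℝ) ^ (δ / 4) * (p : ℝ) ^ ((k : ℝ) + 3 * δ / 4) := by
        rw [← Real.rpow_add hp0]; congr 1; ring
      rw [h3]
      have h4 : 0 < (p : ℝ) ^ ((k : ℝ) + 3 * δ / 4) := by positivity
      have hB0 : 0 ≤ B := by linarith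
      calc M * (p : ℝ) ^ ((k : ℝ) + 3 * δ / 4) ≤ (2 * B) * (p : ℝ) ^ ((k : ℝ) + 3 * δ / 4) :=
            mul_le_mul_of_nonneg_right hMB h4.le
        _ = B * (2 * (p : ℝ) ^ ((k : ℝ) + 3 * δ / 4)) := by ring
        _ ≤ B * ((p : ℝ) ^ (δ / 4) * (p : ℝ) ^ ((k : ℝ) + 3 * δ / 4)) := by
            refine mul_le_mul_of_nonneg_left ?_ hB0
            exact mul_le_mul_of_nonneg_right h2 h4.le)
  exact hfin

end Pool.Agent.N286.DE
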