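import Pool.Agent.Helper170.Weyl

set_option autoImplicit false

/-! # The `ℓ¹` norm of the Fourier transform of a progression in an interval -/

namespace Pool.Agent.N286.DE

open Finset
open Pool.Agent.Helper170.Weyl

lemma e_zero : e 0 = 1 := by simpa using e_int 0

lemma e_fract (x : ℝ) : e (Int.fract x) = e x := by
  have h : Int.fract x = x + ((-⌊x⌋ : ℤ) : ℝ) := by
    rw [Int.fract]; push_cast; ring
  rw [h, e_add, e_int, mul_one]

/-- a sum over an interval is a geometric sum -/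
lemma interval_norm (x : ℝ) (a L : ℕ) :
    ‖∑ m ∈ Ico a (a + L), e (x * m)‖ = ‖∑ n ∈ range L, e (Int.fract x) ^ n‖ := by
  rw [sum_Ico_eq_sum_range, Nat.add_sub_cancel_left]
  have h : ∀ n ∈ range L, e (x * ((a + n : ℕ) : ℝ)) = e (x * a) * e (Int.fract x) ^ n := by
    intro n _
    rw [e_fract, ← e_nat_mul, ← e_add]
    congr 1
    push_cast
    ring
  rw [sum_congr rfl h, ← mul_sum, norm_mul, norm_e, one_mul]

lemma norm_geom_le (x : ℝ) (L : ℕ) : ‖∑ n ∈ range L, e x ^ n‖ ≤ L := by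
  refine (norm_sum_le _ _).trans ?_
  have h : ∀ n ∈ range L, ‖e x ^ n‖ = 1 := fun n _ => by rw [norm_pow, norm_e, one_pow]
  rw [sum_congr rfl h]
  simp

/-- pointwise bound of the kernel -/
lemma ker_point (N : ℕ) (hN : 1 ≤ N) (x : ℝ) (a L : ℕ) (hL : L ≤ N) (b : ℕ)
    (hb : (b : ℤ) = ⌊N * Int.fract x⌋) :
    ‖∑ m ∈ Ico a (a + L), e (x * m)‖ ≤ N * (1 / ((b : ℝ) + 1) + 1 / ((N : ℝ) - b)) := by
  have hN0 : (0 : ℝ) < N := by exact_mod_cast hN
  have hy0 := Int.fract_nonneg x
  have hy1 := Int.fract_lt_one x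
  set y := Int.fract x with hy
  have h1 : (b : ℝ) ≤ N * y := by
    have := Int.floor_le (N * y)
    rw [← hb] at this
    exact_mod_cast this
  have h2 : N * y < b + 1 := by
    have := Int.lt_floor_add_one (N * y)
    rw [← hb] at this
    exact_mod_cast this
  have hbN : (b : ℝ) < N := by nlinarith
  have hbN' : b < N := by exact_mod_cast hbN
  have hbN1 : (b : ℝ) + 1 ≤ N := by exact_mod_cast hbN'
  rw [interval_norm]
  have hLN : (L : ℝ) ≤ N := by exact_mod_cast hL
  have hpos1 : 0 < 1 / ((b : ℝ) + 1) := by positivity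
  have hpos2 : 0 < 1 / ((N : ℝ) - b) := by
    apply one_div_pos.mpr; linarith
  rcases Nat.eq_zero_or_pos b with h0 | h0
  · refine (norm_geom_le _ _).trans (hLN.trans ?_)
    subst h0
    have : (1 : ℝ) ≤ 1 / (((0 : ℕ) : ℝ) + 1) + 1 / ((N : ℝ) - (0 : ℕ)) := by
      have e1 : 1 / (((0 : ℕ) : ℝ) + 1) = 1 := by norm_num
      rw [e1]; linarith
    nlinarith
  · rcases Nat.lt_or_ge (b + 1) N with h3 | h3
    · have hb1 : (1 : ℝ) ≤ b := by exact_mod_cast h0
      have hNb : (1 : ℝ) ≤ (N : ℝ) - 1 - b := by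
        have : ((b + 1 + 1 : ℕ) : ℝ) ≤ N := by exact_mod_cast h3
        push_cast at this
        linarith
      set z : ℝ := min ((b : ℝ) / N) (((N : ℝ) - 1 - b) / N) with hz
      have hz0 : 0 < z := lt_min (by positivity) (by
        apply div_pos (by linarith) hN0)
      have hz1 : z ≤ y := (min_le_left _ _).trans (by
        rw [div_le_iff₀ hN0]; linarith)
      have hz2 : z ≤ 1 - y := (min_le_right _ _).trans (by
        rw [div_le_iff₀ hN0]; nlinarith)
      refine (geom_bound hz0 hz1 hz2 L).trans ?_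
      have hA : 1 / (2 * ((b : ℝ) / N)) ≤ N * (1 / ((b : ℝ) + 1)) := by
        rw [mul_one_div, div_le_div_iff₀ (by positivity) (by positivity)]
        have : (b : ℝ) / N * N = b := by field_simp
        nlinarith
      have hB : 1 / (2 * (((N : ℝ) - 1 - b) / N)) ≤ N * (1 / ((N : ℝ) - b)) := by
        have h6 : 0 < (N : ℝ) - 1 - b := by linarith
        have h7 : 0 < (N : ℝ) - b := by linarith
        rw [mul_one_div, div_le_div_iff₀ (by positivity) h7]
        have : ((N : ℝ) - 1 - b) / N * N = (N : ℝ) - 1 - b := by field_simp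
        nlinarith
      rcases min_choice ((b : ℝ) / N) (((N : ℝ) - 1 - b) / N) with h4 | h4
      · rw [hz, h4, mul_add]
        have : 0 ≤ N * (1 / ((N : ℝ) - b)) := by positivity
        linarith
      · rw [hz, h4, mul_add]
        have : 0 ≤ N * (1 / ((b : ℝ) + 1)) := by positivity
        linarith
    · refine (norm_geom_le _ _).trans (hLN.trans ?_)
      have h4 : (N : ℝ) = b + 1 := by
        have : N = b + 1 := by omega
        exact_mod_cast this
      have e1 : 1 / ((N : ℝ) - b) = 1 := by rw [h4]; norm_num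
      rw [e1]
      nlinarith

lemma sum_kern (N : ℕ) (hN : 1 ≤ N) :
    ∑ b ∈ range N, (N : ℝ) * (1 / ((b : ℝ) + 1) + 1 / ((N : ℝ) - b)) ≤
      2 * N * (1 + Real.log N) := by
  rw [← mul_sum, sum_add_distrib]
  have h1 : ∑ b ∈ range N, 1 / ((b : ℝ) + 1) ≤ 1 + Real.log N := by
    have h := harmonic_le_one_add_log N
    rw [harmonic] at h
    push_cast at h
    refine le_trans (le_of_eq ?_) h
    exact sum_congr rfl fun i _ => by rw [one_div]
  have h2 : ∑ b ∈ range N, 1 / ((N : ℝ) - b) = ∑ b ∈ range N, 1 / ((b : ℝ) + 1) := by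
    rw [← sum_range_reflect]
    apply sum_congr rfl
    intro b hb
    have hb' := mem_range.1 hb
    congr 1
    have : ((N - 1 - b : ℕ) : ℝ) = (N : ℝ) - 1 - b := by
      rw [Nat.cast_sub (by omega), Nat.cast_sub (by omega)]
      push_cast; ring
    rw [this]; ring
  rw [h2]
  have hN0 : (0 : ℝ) < N := by exact_mod_cast hN
  nlinarith

/-- The sum of the kernels over equally spaced points. -/
theorem ker (N : ℕ) (hN : 1 ≤ N) (θ : ℝ) (a L : ℕ) (hL : L ≤ N) :
    ∑ c ∈ range N, ‖∑ m ∈ Ico a (a + L), e ((θ + (c : ℝ) / N) * m)‖ ≤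
      2 * N * (1 + Real.log N) := by
  have hN0 : (0 : ℝ) < N := by exact_mod_cast hN
  have hNz : (N : ℤ) ≠ 0 := by omega
  set b : ℕ → ℕ := fun c => ⌊N * Int.fract (θ + (c : ℝ) / N)⌋.toNat with hb
  have hbz : ∀ c, ((b c : ℕ) : ℤ) = ⌊N * Int.fract (θ + (c : ℝ) / N)⌋ := by
    intro c
    rw [hb]
    refine Int.toNat_of_nonneg (Int.floor_nonneg.2 (mul_nonneg hN0.le (Int.fract_nonneg _)))
  have hbN : ∀ c, b c < N := by
    intro c
    have h1 : ((b c : ℕ) : ℤ) < N := by
      rw [hbz, Int.floor_lt]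
      have := Int.fract_lt_one (θ + (c : ℝ) / N)
      push_cast
      nlinarith
    exact_mod_cast h1
  have hmod : ∀ c, ((b c : ℕ) : ℤ) = ⌊N * θ⌋ + c - N * ⌊θ + (c : ℝ) / N⌋ := by
    intro c
    rw [hbz]
    have h1 : N * Int.fract (θ + (c : ℝ) / N) =
        N * θ + (((c : ℤ) - N * ⌊θ + (c : ℝ) / N⌋ : ℤ) : ℝ) := by
      rw [Int.fract]; push_cast; field_simp; ring
    rw [h1, Int.floor_add_intCast]
    ring
  have hinj : Set.InjOn b (range N : Finset ℕ) := by
    intro c hc c' hc' h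
    have hc1 := mem_range.1 (mem_coe.1 hc)
    have hc2 := mem_range.1 (mem_coe.1 hc')
    have h1 := hmod c
    have h2 := hmod c'
    rw [h] at h1
    have h3 : (N : ℤ) ∣ (c : ℤ) - c' := ⟨⌊θ + (c : ℝ) / N⌋ - ⌊θ + (c' : ℝ) / N⌋, by
      rw [mul_sub]; linarith⟩
    obtain ⟨k, hk⟩ := h3
    have h4 : k = 0 := by
      by_contra hk0
      rcases lt_or_gt_of_ne hk0 with h5 | h5
      · have : (N : ℤ) * k ≤ -N := by nlinarith
        omega
      · have : (N : ℤ) ≤ N * k := by nlinarith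
        omega
    rw [h4, mul_zero] at hk
    omega
  calc ∑ c ∈ range N, ‖∑ m ∈ Ico a (a + L), e ((θ + (c : ℝ) / N) * m)‖
      ≤ ∑ c ∈ range N, (N : ℝ) * (1 / ((b c : ℝ) + 1) + 1 / ((N : ℝ) - b c)) :=
        sum_le_sum fun c _ => ker_point N hN _ a L hL (b c) (hbz c)
    _ = ∑ i ∈ (range N).image b, (N : ℝ) * (1 / ((i : ℝ) + 1) + 1 / ((N : ℝ) - i)) := by
        rw [sum_image hinj]
    _ ≤ ∑ i ∈ range N, (N : ℝ) * (1 / ((i : ℝ) + 1) + 1 / ((N : ℝ) - i)) := by
        apply sum_le_sum_of_subset_of_nonneg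
        · intro i hi
          obtain ⟨c, _, rfl⟩ := mem_image.1 hi
          exact mem_range.2 (hbN c)
        · intro i hi _
          have : (i : ℝ) < N := by exact_mod_cast mem_range.1 hi
          have h1 : 0 < 1 / ((N : ℝ) - i) := one_div_pos.mpr (by linarith)
          positivity
    _ ≤ _ := sum_kern N hN

end Pool.Agent.N286.DE
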