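import Pool.Agent.N286.DE.Core

set_option autoImplicit false

/-! # The theorem for sequences modulo `p` with small exponential sums -/

namespace Pool.Agent.N286.DE

open Finset Filter
open Pool.Agent.H256R2.SC (ff)
open Pool.Agent.W147.PS (ff_compare ev_pow)
open Pool.Agent.Helper170.Weyl (e)

/-- the growth conditions -/
lemma ev_main (k : ℕ) (δ : ℝ) (hδ : 0 < δ) : ∀ᶠ P : ℝ in atTop,
    4 ≤ P ^ (δ / 2) ∧ (2 : ℝ) ^ (k + 1) ≤ P ^ (δ / 4) ∧ (Real.log P) ^ 2 ≤ P ^ (δ / 2) / 2 ∧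
      2 * P ^ (δ / 8) < P ^ (δ / 2) := by
  have h3 : ∀ᶠ P : ℝ in atTop, Real.log P ≤ P ^ (δ / 8) := by
    have h := (isLittleO_log_rpow_atTop (show (0 : ℝ) < δ / 8 by positivity)).def
      (show (0 : ℝ) < 1 by norm_num)
    filter_upwards [h, eventually_ge_atTop (1 : ℝ)] with X hX hX1
    rw [Real.norm_eq_abs, abs_of_nonneg (Real.log_nonneg hX1), Real.norm_eq_abs,
      abs_of_nonneg (Real.rpow_nonneg (by linarith) _)] at hX
    linarith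
  filter_upwards [h3, ev_pow (δ / 4) (δ / 2) 2 (by linarith), ev_pow (δ / 8) (δ / 2) 3 (by linarith),
    (tendsto_rpow_atTop (show (0 : ℝ) < δ / 2 by positivity)).eventually_ge_atTop 4,
    (tendsto_rpow_atTop (show (0 : ℝ) < δ / 4 by positivity)).eventually_ge_atTop (2 ^ (k + 1)),
    eventually_ge_atTop (1 : ℝ)] with P h3 h4 h5 h6 h7 hP
  have hP0 : 0 < P := by linarith
  refine ⟨h6, h7, ?_, ?_⟩
  · have h8 : (Real.log P) ^ 2 ≤ (P ^ (δ / 8)) ^ 2 :=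
      pow_le_pow_left₀ (Real.log_nonneg hP) h3 2
    have h9 : (P ^ (δ / 8)) ^ 2 = P ^ (δ / 4) := by
      rw [← Real.rpow_natCast, ← Real.rpow_mul hP0.le]; congr 1; push_cast; ring
    rw [h9] at h8
    linarith
  · have := Real.rpow_pos_of_pos hP0 (δ / 8)
    linarith

lemma prod_half (k : ℕ) (D : Fin k → ℝ) (hD : ∀ i, 0 ≤ D i) (D' : Fin k → ℝ)
    (h : ∀ i, D i ≤ 2 * D' i) : ∏ i, D i ≤ 2 ^ k * ∏ i, D' i := by
  calc ∏ i, D i ≤ ∏ i, (2 * D' i) := prod_le_prod (fun i _ => hD i) (fun i _ => h i)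
    _ = _ := by rw [prod_mul_distrib, prod_const, card_univ, Fintype.card_fin]

/-- The theorem for sequences modulo `p` with small exponential sums. -/
theorem main (k K : ℕ) (δ : ℝ) (hδ : 0 < δ) (hδ1 : δ ≤ 1) : ∃ κ : ℝ, 0 < κ ∧
    ∀ᶠ P : ℝ in atTop, ∀ p : ℕ, (p : ℝ) = P →
    ∀ T : ℕ, 1 ≤ T → T ≤ p ^ K → ∀ n : ℕ → Fin k → ℕ, (∀ x i, n x i < p) →
    ∀ M : ℝ, 1 ≤ M → (∀ b : ℕ, ∀ c < T, ∀ h : Fin k → ℕ, (∀ i, h i < p) → h ≠ 0 →
      ‖∑ x ∈ range T, e ((c : ℝ) * x / T) * ∏ i, e ((h i : ℝ) * n (b + x) i / p)‖ ≤ M) →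
    ∀ (a L : ℕ) (c D : Fin k → ℕ), L ≤ T → (∀ i, c i + D i ≤ p) →
    P ^ δ ≤ L → (∀ i, P ^ δ ≤ D i) → M * P ^ ((k : ℝ) + 3 * δ / 4) ≤ L * ∏ i, (D i : ℝ) →
    (L * ∏ i, (D i : ℝ)) * P ^ (-((k : ℝ) + δ)) ≤
      Set.ncard {x : ℕ | a ≤ x ∧ x < a + L ∧ (∀ i, c i ≤ n x i ∧ n x i < c i + D i) ∧
        ∀ m : ℤ, (|(m : ℝ) - x| ≤ κ * ff P ∨ ∃ i, |(m : ℝ) - n x i| ≤ κ * ff P) →
          ∃ q : ℕ, q.Prime ∧ (q : ℝ) ≤ P ^ δ ∧ (q : ℤ) ∣ m ∧ (q : ℤ) < m} := by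
  classical
  obtain ⟨κ, hκ, hc⟩ := core k K (δ / 2) (by linarith) (by linarith)
  refine ⟨κ, hκ, ?_⟩
  filter_upwards [hc, ev_main k δ hδ, eventually_ge_atTop (1 : ℝ)] with P hP hev hP1
  obtain ⟨h4, h2k, hlog, h8⟩ := hev
  obtain ⟨hff, hmain⟩ := hP
  have hP0 : 0 < P := by linarith
  have hmono : ∀ x y : ℝ, x ≤ y → P ^ x ≤ P ^ y := fun x y h =>
    Real.rpow_le_rpow_of_exponent_le hP1 h
  intro p hpP T hT hTp n hn M hM1 hM a L c D ha hcD hL hD hLD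
  set G : Finset ℕ := (Ico a (a + L)).filter fun x => (∀ i, c i ≤ n x i ∧ n x i < c i + D i) ∧
        ∀ m : ℤ, (|(m : ℝ) - x| ≤ κ * ff P ∨ ∃ i, |(m : ℝ) - n x i| ≤ κ * ff P) →
          ∃ q : ℕ, q.Prime ∧ (q : ℝ) ≤ P ^ δ ∧ (q : ℤ) ∣ m ∧ (q : ℤ) < m with hG
  have hset : {x : ℕ | a ≤ x ∧ x < a + L ∧ (∀ i, c i ≤ n x i ∧ n x i < c i + D i) ∧
        ∀ m : ℤ, (|(m : ℝ) - x| ≤ κ * ff P ∨ ∃ i, |(m : ℝ) - n x i| ≤ κ * ff P) →
          ∃ q : ℕ, q.Prime ∧ (q : ℝ) ≤ P ^ δ ∧ (q : ℤ) ∣ m ∧ (q : ℤ) < m} = (G : Set ℕ) := by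
    ext x
    rw [hG, Finset.coe_filter, Set.mem_setOf_eq, Set.mem_setOf_eq, mem_Ico, and_assoc]
  rw [hset, Set.ncard_coe_finset]
  -- the shift
  set s₀ : ℕ := ⌈P ^ (δ / 2)⌉₊ with hs₀
  have hs1 : P ^ (δ / 2) ≤ s₀ := Nat.le_ceil _
  have hs2 : (s₀ : ℝ) < P ^ (δ / 2) + 1 := Nat.ceil_lt_add_one (by positivity)
  have hδδ : P ^ δ = P ^ (δ / 2) * P ^ (δ / 2) := by
    rw [← Real.rpow_add hP0]; congr 1; ring
  have hs3 : 2 * (s₀ : ℝ) ≤ P ^ δ := by rw [hδδ]; nlinarith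
  have hs3' : ∀ D : ℕ, P ^ δ ≤ D → s₀ ≤ D ∧ (D : ℝ) ≤ 2 * ((D - s₀ : ℕ) : ℝ) ∧
      P ^ (δ / 2) ≤ ((D - s₀ : ℕ) : ℝ) := by
    intro D hD
    have h1 : 2 * (s₀ : ℝ) ≤ D := hs3.trans hD
    have h2 : (s₀ : ℝ) ≤ D := by
      have : (0 : ℝ) ≤ s₀ := Nat.cast_nonneg _
      linarith
    have h3 : s₀ ≤ D := by exact_mod_cast h2
    rw [Nat.cast_sub h3]
    refine ⟨h3, by linarith, ?_⟩
    linarith
  obtain ⟨hL1, hL2, hL3⟩ := hs3' L hL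
  have hpd := prod_half k (fun i => (D i : ℝ)) (fun i => Nat.cast_nonneg _)
    (fun i => ((D i - s₀ : ℕ) : ℝ)) (fun i => (hs3' (D i) (hD i)).2.1)
  set W : ℝ := L * ∏ i, (D i : ℝ) with hW
  set W' : ℝ := ((L - s₀ : ℕ) : ℝ) * ∏ i, ((D i - s₀ : ℕ) : ℝ) with hW'
  have hW0 : 0 ≤ W := by positivity
  have hW'0 : 0 ≤ W' := by positivity
  have hWW : W ≤ 2 ^ (k + 1) * W' := by
    calc W ≤ (2 * ((L - s₀ : ℕ) : ℝ)) * (2 ^ k * ∏ i, ((D i - s₀ : ℕ) : ℝ)) :=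
          mul_le_mul hL2 hpd (by positivity) (by positivity)
      _ = _ := by rw [hW']; ring
  set G' : Finset ℕ := G.image fun x => x - (a + s₀) with hG'
  have hcore := hmain p hpP T hT hTp (fun x => n (a + s₀ + x)) (fun x _ i => hn _ i) M hM1
    (hM (a + s₀)) 0 (a + s₀) (L - s₀) (fun i => c i + s₀)
    (fun i => D i - s₀) (by omega) (fun i => by
      have := hcD i
      have := (hs3' (D i) (hD i)).1
      omega) hL3 (fun i => (hs3' (D i) (hD i)).2.2) (by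
      have h1 : M * P ^ ((k : ℝ) + δ / 2) * P ^ (δ / 4) ≤ 2 ^ (k + 1) * W' := by
        refine le_trans (le_of_eq ?_) (hLD.trans hWW)
        rw [mul_assoc, ← Real.rpow_add hP0]
        congr 2
        ring
      have h2 : 0 ≤ M * P ^ ((k : ℝ) + δ / 2) := by positivity
      have h3 : M * P ^ ((k : ℝ) + δ / 2) * 2 ^ (k + 1) ≤ 2 ^ (k + 1) * W' :=
        (mul_le_mul_of_nonneg_left h2k h2).trans h1
      have h4 : (0 : ℝ) < 2 ^ (k + 1) := by positivity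
      have h5 : 2 ^ (k + 1) * (M * P ^ ((k : ℝ) + δ / 2)) ≤ 2 ^ (k + 1) * W' := by linarith
      exact le_of_mul_le_mul_left h5 h4) G' (by
    intro x hx1 hx2 hx3 hx4
    rw [hG', mem_image]
    refine ⟨a + s₀ + x, ?_, by omega⟩
    rw [hG, mem_filter, mem_Ico]
    refine ⟨⟨by omega, by omega⟩, fun i => ?_, ?_⟩
    · have h1 := hx3 i
      have h2 := (hs3' (D i) (hD i)).1
      constructor <;> omega
    · intro m hm
      have hm' : |(m : ℝ) - (((a + s₀ : ℕ) : ℝ) + x)| ≤ κ * ff P ∨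
          ∃ i, |(m : ℝ) - n (a + s₀ + x) i| ≤ κ * ff P := by
        refine hm.imp (fun h => ?_) id
        push_cast at h ⊢
        exact h
      obtain ⟨q, hq, hqX, hqm⟩ := hx4 m hm'
      have hexp : P ^ (δ / 2 / 4) = P ^ (δ / 8) := by congr 1; ring
      rw [hexp] at hqX
      refine ⟨q, hq, hqX.trans (hmono _ _ (by linarith)), hqm, ?_⟩
      have hlow : (s₀ : ℝ) - κ * ff P ≤ m := by
        rcases hm with hm | ⟨i, hm⟩
        · have h1 : (s₀ : ℝ) ≤ ((a + s₀ + x : ℕ) : ℝ) := by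
            have : s₀ ≤ a + s₀ + x := by omega
            exact_mod_cast this
          have := (abs_le.mp hm).1
          linarith
        · have h1 : (s₀ : ℝ) ≤ n (a + s₀ + x) i := by
            have := (hx3 i).1
            have : s₀ ≤ n (a + s₀ + x) i := by omega
            exact_mod_cast this
          have := (abs_le.mp hm).1
          linarith
      have h1 : (q : ℝ) < m := by linarith
      exact_mod_cast h1)
  refine le_trans ?_ (hcore.trans (Nat.cast_le.2 card_image_le))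
  have h1 : P ^ (-((k : ℝ) + δ)) * 2 ^ (k + 1) ≤ P ^ (-((k : ℝ) + δ / 2 / 2)) := by
    have h2 : P ^ (-((k : ℝ) + δ)) * P ^ (3 * δ / 4) = P ^ (-((k : ℝ) + δ / 2 / 2)) := by
      rw [← Real.rpow_add hP0]; congr 1; ring
    rw [← h2]
    refine mul_le_mul_of_nonneg_left ?_ (Real.rpow_nonneg hP0.le _)
    exact h2k.trans (hmono _ _ (by linarith))
  calc W * P ^ (-((k : ℝ) + δ)) ≤ (2 ^ (k + 1) * W') * P ^ (-((k : ℝ) + δ)) :=
        mul_le_mul_of_nonneg_right hWW (Real.rpow_nonneg hP0.le _)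
    _ = W' * (P ^ (-((k : ℝ) + δ)) * 2 ^ (k + 1)) := by ring
    _ ≤ _ := mul_le_mul_of_nonneg_left h1 hW'0

end Pool.Agent.N286.DE
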