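import Pool.Agent.N286.DE.Ker

set_option autoImplicit false

/-! # Fourier coefficients of progressions in intervals, and the counting lemma -/

namespace Pool.Agent.N286.DE

open Finset
open Pool.Agent.Helper170.Weyl (e e_add norm_e conj_e e_int e_nat_mul geom_bound)

/-- the members of an interval in a residue class -/
def seg (a L q : ℕ) (ρ : ℤ) : Finset ℕ := (Ico a (a + L)).filter fun m => (q : ℤ) ∣ (m : ℤ) - ρ

/-- the Fourier coefficient of a set -/
noncomputable def hat (N : ℕ) (B : Finset ℕ) (c : ℕ) : ℂ := ∑ m ∈ B, e (-((c : ℝ) * m / N))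

/-- sum over the dual of the cyclic group -/
lemma sum_e (q : ℕ) (hq : 1 ≤ q) (t : ℤ) :
    ∑ j ∈ range q, e ((j : ℝ) * t / q) = if (q : ℤ) ∣ t then (q : ℂ) else 0 := by
  have hq0 : (q : ℝ) ≠ 0 := by exact_mod_cast (by omega : q ≠ 0)
  have h1 : ∀ j ∈ range q, e ((j : ℝ) * t / q) = e ((t : ℝ) / q) ^ j := by
    intro j _
    rw [← e_nat_mul]
    congr 1
    ring
  rw [sum_congr rfl h1]
  split_ifs with h
  · obtain ⟨k, rfl⟩ := h
    have h2 : e (((q : ℤ) * k : ℤ) / (q : ℝ)) = 1 := by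
      have : (((q : ℤ) * k : ℤ) : ℝ) / (q : ℝ) = ((k : ℤ) : ℝ) := by
        push_cast; field_simp
      rw [this, e_int]
    rw [h2]
    simp
  · have h2 : e ((t : ℝ) / q) ^ q = 1 := by
      rw [← e_nat_mul]
      have : (q : ℝ) * ((t : ℝ) / q) = (t : ℝ) := by field_simp
      rw [this, e_int]
    have h3 : e ((t : ℝ) / q) ≠ 1 := by
      intro h4
      apply h
      unfold e at h4
      rw [Complex.exp_eq_one_iff] at h4
      obtain ⟨n, hn⟩ := h4
      have h5 : (((t : ℝ) / q : ℝ) : ℂ) = (n : ℂ) := by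
        have h6 : (2 * (Real.pi : ℂ) * Complex.I) ≠ 0 := Complex.two_pi_I_ne_zero
        apply mul_left_cancel₀ h6
        rw [hn]; ring
      have h6 : (t : ℝ) / q = (n : ℝ) := by exact_mod_cast h5
      rw [div_eq_iff hq0] at h6
      refine ⟨n, ?_⟩
      have : (t : ℝ) = ((n * q : ℤ) : ℝ) := by push_cast; exact h6
      have h7 : t = n * q := by exact_mod_cast this
      rw [h7]; ring
    rw [geom_sum_eq h3, h2, sub_self, zero_div]

/-- The `ℓ¹` norm of the Fourier coefficients of a progression in an interval. -/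
theorem hat_seg (N : ℕ) (hN : 1 ≤ N) (a L : ℕ) (hL : L ≤ N) (q : ℕ) (hq : 1 ≤ q) (ρ : ℤ) :
    ∑ c ∈ range N, ‖hat N (seg a L q ρ) c‖ ≤ 2 * N * (1 + Real.log N) := by
  have hq0 : (0 : ℝ) < q := by exact_mod_cast hq
  have hqc : (q : ℂ) ≠ 0 := by exact_mod_cast (by omega : q ≠ 0)
  have h1 : ∀ c ∈ range N, ‖hat N (seg a L q ρ) c‖ ≤
      (1 / (q : ℝ)) * ∑ j ∈ range q,
        ‖∑ m ∈ Ico a (a + L), e ((-((j : ℝ) / q) + (c : ℝ) / N) * m)‖ := by
    intro c _
    have h2 : hat N (seg a L q ρ) c = (1 / (q : ℂ)) * ∑ j ∈ range q, e (-((j : ℝ) * ρ / q)) *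
        ∑ m ∈ Ico a (a + L), e (((j : ℝ) / q - (c : ℝ) / N) * m) := by
      unfold hat seg
      rw [sum_filter]
      have h3 : ∀ m ∈ Ico a (a + L), (if (q : ℤ) ∣ (m : ℤ) - ρ then e (-((c : ℝ) * m / N)) else 0) =
          (1 / (q : ℂ)) * ∑ j ∈ range q, e (-((j : ℝ) * ρ / q)) *
            e (((j : ℝ) / q - (c : ℝ) / N) * m) := by
        intro m _
        have h4 : ∀ j ∈ range q, e (-((j : ℝ) * ρ / q)) * e (((j : ℝ) / q - (c : ℝ) / N) * m) =
            e (-((c : ℝ) * m / N)) * e ((j : ℝ) * (((m : ℤ) - ρ : ℤ) : ℝ) / q) := by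
          intro j _
          rw [← e_add, ← e_add]
          congr 1
          push_cast
          ring
        rw [sum_congr rfl h4, ← mul_sum, sum_e q hq]
        split_ifs with h5
        · field_simp
        · ring
      rw [sum_congr rfl h3, ← mul_sum, sum_comm]
      congr 1
      exact sum_congr rfl fun j _ => by rw [mul_sum]
    rw [h2, norm_mul]
    have h5 : ‖(1 / (q : ℂ))‖ = 1 / (q : ℝ) := by
      rw [norm_div, norm_one, Complex.norm_natCast]
    rw [h5]
    refine mul_le_mul_of_nonneg_left ?_ (by positivity)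
    refine (norm_sum_le _ _).trans (sum_le_sum fun j _ => ?_)
    rw [norm_mul, norm_e, one_mul]
    refine le_of_eq ?_
    rw [← Complex.norm_conj, map_sum]
    congr 1
    refine sum_congr rfl fun m _ => ?_
    rw [conj_e]
    congr 1
    ring
  refine (sum_le_sum h1).trans ?_
  rw [← mul_sum, sum_comm]
  have h6 : ∑ j ∈ range q, ∑ c ∈ range N,
      ‖∑ m ∈ Ico a (a + L), e ((-((j : ℝ) / q) + (c : ℝ) / N) * m)‖ ≤
      ∑ j ∈ range q, 2 * N * (1 + Real.log N) :=
    sum_le_sum fun j _ => ker N hN _ a L hL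
  refine (mul_le_mul_of_nonneg_left h6 (by positivity)).trans (le_of_eq ?_)
  rw [sum_const, card_range, nsmul_eq_mul]
  field_simp

/-- Fourier inversion for a set of residues. -/
lemma inversion (N : ℕ) (hN : 1 ≤ N) (B : Finset ℕ) (hB : ∀ m ∈ B, m < N) (x : ℕ) (hx : x < N) :
    (if x ∈ B then (1 : ℂ) else 0) =
      (1 / (N : ℂ)) * ∑ c ∈ range N, hat N B c * e ((c : ℝ) * x / N) := by
  have hNc : (N : ℂ) ≠ 0 := by exact_mod_cast (by omega : N ≠ 0)
  have h1 : ∑ c ∈ range N, hat N B c * e ((c : ℝ) * x / N) =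
      ∑ m ∈ B, if m = x then (N : ℂ) else 0 := by
    unfold hat
    have h2 : ∀ c ∈ range N, (∑ m ∈ B, e (-((c : ℝ) * m / N))) * e ((c : ℝ) * x / N) =
        ∑ m ∈ B, e ((c : ℝ) * (((x : ℤ) - m : ℤ) : ℝ) / N) := by
      intro c _
      rw [sum_mul]
      refine sum_congr rfl fun m _ => ?_
      rw [← e_add]
      congr 1
      push_cast
      ring
    rw [sum_congr rfl h2, sum_comm]
    refine sum_congr rfl fun m hm => ?_
    rw [sum_e N hN]
    have hm' := hB m hm
    have h3 : ((N : ℤ) ∣ (x : ℤ) - m) ↔ m = x := by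
      constructor
      · intro h
        have h4 := Int.eq_zero_of_abs_lt_dvd h (by rw [abs_lt]; constructor <;> omega)
        omega
      · rintro rfl
        simp
    simp only [h3]
  rw [h1, sum_ite_eq']
  split_ifs with h
  · field_simp
  · ring

/-- The counting lemma. -/
theorem counting (k T p : ℕ) (hT : 1 ≤ T) (hp : 1 ≤ p) (n : ℕ → Fin k → ℕ)
    (hn : ∀ x < T, ∀ i, n x i < p) (M : ℝ)
    (hM : ∀ c < T, ∀ h : Fin k → ℕ, (∀ i, h i < p) → h ≠ 0 →
      ‖∑ x ∈ range T, e ((c : ℝ) * x / T) * ∏ i, e ((h i : ℝ) * n x i / p)‖ ≤ M)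
    (A : Finset ℕ) (hA : ∀ x ∈ A, x < T) (B : Fin k → Finset ℕ) (hB : ∀ i, ∀ m ∈ B i, m < p)
    (ΛT Λp : ℝ) (hΛT : ∑ c ∈ range T, ‖hat T A c‖ ≤ T * ΛT)
    (hΛp : ∀ i, ∑ c ∈ range p, ‖hat p (B i) c‖ ≤ p * Λp) (hM0 : 0 ≤ M) :
    |(((A.filter fun x => ∀ i, n x i ∈ B i).card : ℕ) : ℝ) -
      A.card * (∏ i, ((B i).card : ℝ)) / (p : ℝ) ^ k| ≤ M * ΛT * Λp ^ k := by
  classical
  have hT0 : (0 : ℝ) < T := by exact_mod_cast hT
  have hp0 : (0 : ℝ) < p := by exact_mod_cast hp
  have hpc : (p : ℂ) ≠ 0 := by exact_mod_cast (by omega : p ≠ 0)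
  have hTc : (T : ℂ) ≠ 0 := by exact_mod_cast (by omega : T ≠ 0)
  -- the product of the indicators
  have hprod : ∀ x ∈ A, (if ∀ i, n x i ∈ B i then (1 : ℂ) else 0) =
      (1 / (p : ℂ)) ^ k * ∑ h ∈ Fintype.piFinset (fun _ : Fin k => range p),
        ((∏ i, hat p (B i) (h i)) * ∏ i, e ((h i : ℝ) * n x i / p)) := by
    intro x hx
    have h1 : (if ∀ i, n x i ∈ B i then (1 : ℂ) else 0) = ∏ i, (if n x i ∈ B i then (1 : ℂ) else 0) := by
      rw [Finset.prod_ite_zero]
      simp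
    rw [h1]
    have h2 : ∀ i ∈ (univ : Finset (Fin k)), (if n x i ∈ B i then (1 : ℂ) else 0) =
        (1 / (p : ℂ)) * ∑ c ∈ range p, hat p (B i) c * e ((c : ℝ) * n x i / p) := fun i _ =>
      inversion p hp (B i) (hB i) (n x i) (hn x (hA x hx) i)
    rw [prod_congr rfl h2, prod_mul_distrib, prod_const, card_univ, Fintype.card_fin,
      Finset.prod_univ_sum]
    congr 1
    exact sum_congr rfl fun h _ => by rw [prod_mul_distrib]
  -- the count as a complex number
  have hcount : (((A.filter fun x => ∀ i, n x i ∈ B i).card : ℕ) : ℂ) =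
      (1 / (p : ℂ)) ^ k * ∑ h ∈ Fintype.piFinset (fun _ : Fin k => range p),
        ((∏ i, hat p (B i) (h i)) * ∑ x ∈ A, ∏ i, e ((h i : ℝ) * n x i / p)) := by
    rw [card_filter]
    push_cast
    rw [sum_congr rfl hprod, ← mul_sum, sum_comm]
    congr 1
    exact sum_congr rfl fun h _ => by rw [mul_sum]
  -- the zero frequency
  have hzero : (∏ i, hat p (B i) ((0 : Fin k → ℕ) i)) *
      ∑ x ∈ A, ∏ i, e ((((0 : Fin k → ℕ) i : ℕ) : ℝ) * n x i / p) = A.card * ∏ i, ((B i).card : ℂ) := by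
    have h1 : ∀ i ∈ (univ : Finset (Fin k)), hat p (B i) ((0 : Fin k → ℕ) i) = ((B i).card : ℂ) := by
      intro i _
      unfold hat
      simp [e_zero]
    have h2 : ∀ x ∈ A, ∏ i, e ((((0 : Fin k → ℕ) i : ℕ) : ℝ) * n x i / p) = 1 := by
      intro x _
      simp [e_zero]
    rw [prod_congr rfl h1, sum_congr rfl h2]
    simp [mul_comm]
  -- the bound of the other sums
  have hinner : ∀ h ∈ (Fintype.piFinset (fun _ : Fin k => range p)).erase 0,
      ‖∑ x ∈ A, ∏ i, e ((h i : ℝ) * n x i / p)‖ ≤ M * ΛT := by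
    intro h hh
    have hh0 := ne_of_mem_erase hh
    have hhp : ∀ i, h i < p := by
      intro i
      have := Fintype.mem_piFinset.1 (mem_of_mem_erase hh) i
      exact mem_range.1 this
    have h1 : ∑ x ∈ A, ∏ i, e ((h i : ℝ) * n x i / p) =
        (1 / (T : ℂ)) * ∑ c ∈ range T, hat T A c *
          ∑ x ∈ range T, e ((c : ℝ) * x / T) * ∏ i, e ((h i : ℝ) * n x i / p) := by
      have h2 : ∑ x ∈ A, ∏ i, e ((h i : ℝ) * n x i / p) =
          ∑ x ∈ range T, (if x ∈ A then (1 : ℂ) else 0) * ∏ i, e ((h i : ℝ) * n x i / p) := by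
        have h3 : A = (range T).filter (fun x => x ∈ A) := by
          ext x
          rw [mem_filter, mem_range]
          exact ⟨fun h => ⟨hA x h, h⟩, fun h => h.2⟩
        conv_lhs => rw [h3]
        rw [sum_filter]
        refine sum_congr rfl fun x _ => ?_
        split_ifs
        · rw [one_mul]
        · rw [zero_mul]
      rw [h2]
      have h4 : ∀ x ∈ range T, (if x ∈ A then (1 : ℂ) else 0) * ∏ i, e ((h i : ℝ) * n x i / p) =
          (1 / (T : ℂ)) * ∑ c ∈ range T, hat T A c * (e ((c : ℝ) * x / T) *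
            ∏ i, e ((h i : ℝ) * n x i / p)) := by
        intro x hx
        rw [inversion T hT A hA x (mem_range.1 hx), mul_assoc, sum_mul]
        congr 1
        exact sum_congr rfl fun c _ => by ring
      rw [sum_congr rfl h4, ← mul_sum, sum_comm]
      congr 1
      exact sum_congr rfl fun c _ => by rw [mul_sum]
    rw [h1, norm_mul, norm_div, norm_one, Complex.norm_natCast]
    have h5 : ‖∑ c ∈ range T, hat T A c *
          ∑ x ∈ range T, e ((c : ℝ) * x / T) * ∏ i, e ((h i : ℝ) * n x i / p)‖ ≤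
        ∑ c ∈ range T, ‖hat T A c‖ * M := by
      refine (norm_sum_le _ _).trans (sum_le_sum fun c hc => ?_)
      rw [norm_mul]
      exact mul_le_mul_of_nonneg_left (hM c (mem_range.1 hc) h hhp hh0) (norm_nonneg _)
    rw [← sum_mul] at h5
    have h6 : (∑ c ∈ range T, ‖hat T A c‖) * M ≤ T * ΛT * M :=
      mul_le_mul_of_nonneg_right hΛT hM0
    calc 1 / (T : ℝ) * ‖∑ c ∈ range T, hat T A c *
          ∑ x ∈ range T, e ((c : ℝ) * x / T) * ∏ i, e ((h i : ℝ) * n x i / p)‖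
        ≤ 1 / (T : ℝ) * (T * ΛT * M) :=
          mul_le_mul_of_nonneg_left (h5.trans h6) (by positivity)
      _ = M * ΛT := by field_simp
  have hΛ0 : 0 ≤ M * ΛT := by
    have h1 : 0 ≤ T * ΛT := le_trans (sum_nonneg fun c _ => norm_nonneg _) hΛT
    have h2 : 0 ≤ ΛT := by
      by_contra h
      push Not at h
      nlinarith
    exact mul_nonneg hM0 h2
  have hdiff : ((((A.filter fun x => ∀ i, n x i ∈ B i).card : ℕ) : ℝ) -
      A.card * (∏ i, ((B i).card : ℝ)) / (p : ℝ) ^ k : ℝ) =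
      ((1 / (p : ℂ)) ^ k * ∑ h ∈ (Fintype.piFinset (fun _ : Fin k => range p)).erase 0,
        ((∏ i, hat p (B i) (h i)) * ∑ x ∈ A, ∏ i, e ((h i : ℝ) * n x i / p)) : ℂ) := by
    have h0mem : (0 : Fin k → ℕ) ∈ Fintype.piFinset (fun _ : Fin k => range p) := by
      rw [Fintype.mem_piFinset]
      intro i
      exact mem_range.2 (show 0 < p by omega)
    push_cast
    rw [hcount, ← add_sum_erase _ _ h0mem, hzero, mul_add, one_div, inv_pow]
    field_simp
    ring
  rw [← Real.norm_eq_abs, ← Complex.norm_real, hdiff, norm_mul, norm_pow, norm_div, norm_one,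
    Complex.norm_natCast]
  have h7 : ‖∑ h ∈ (Fintype.piFinset (fun _ : Fin k => range p)).erase 0,
        ((∏ i, hat p (B i) (h i)) * ∑ x ∈ A, ∏ i, e ((h i : ℝ) * n x i / p))‖ ≤
      ∑ h ∈ Fintype.piFinset (fun _ : Fin k => range p), (∏ i, ‖hat p (B i) (h i)‖) * (M * ΛT) := by
    refine (norm_sum_le _ _).trans ?_
    refine le_trans (sum_le_sum (g := fun h => (∏ i, ‖hat p (B i) (h i)‖) * (M * ΛT))
      fun h hh => ?_) ?_
    · rw [norm_mul, norm_prod]
      exact mul_le_mul_of_nonneg_left (hinner h hh) (prod_nonneg fun i _ => norm_nonneg _)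
    · refine sum_le_sum_of_subset_of_nonneg (erase_subset _ _) fun h _ _ => ?_
      exact mul_nonneg (prod_nonneg fun i _ => norm_nonneg _) hΛ0
  rw [← sum_mul] at h7
  have h9 : ∑ h ∈ Fintype.piFinset (fun _ : Fin k => range p), (∏ i, ‖hat p (B i) (h i)‖) =
      ∏ i, ∑ j ∈ range p, ‖hat p (B i) j‖ :=
    (Finset.prod_univ_sum (fun _ : Fin k => range p) (fun i j => ‖hat p (B i) j‖)).symm
  rw [h9] at h7
  have h8 : ∏ i, ∑ j ∈ range p, ‖hat p (B i) j‖ ≤ (p * Λp) ^ k := by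
    refine (prod_le_prod (fun i _ => sum_nonneg fun c _ => norm_nonneg _)
      (fun i _ => hΛp i)).trans (le_of_eq ?_)
    rw [prod_const, card_univ, Fintype.card_fin]
  calc (1 / (p : ℝ)) ^ k * ‖∑ h ∈ (Fintype.piFinset (fun _ : Fin k => range p)).erase 0,
        ((∏ i, hat p (B i) (h i)) * ∑ x ∈ A, ∏ i, e ((h i : ℝ) * n x i / p))‖
      ≤ (1 / (p : ℝ)) ^ k * ((p * Λp) ^ k * (M * ΛT)) := by
        refine mul_le_mul_of_nonneg_left (h7.trans ?_) (by positivity)
        exact mul_le_mul_of_nonneg_right h8 hΛ0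
    _ = M * ΛT * Λp ^ k := by
        rw [mul_pow, one_div, inv_pow]
        field_simp

end Pool.Agent.N286.DE
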