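import Mathlib
import Pool.Agent.N286.DE.Sets

set_option autoImplicit false

/-! # Exponential sums over orbits of matrices that act freely -/

namespace Pool.Agent.N286.DE

open Finset Matrix
open Pool.Agent.Helper170.Weyl (e e_add norm_e conj_e e_int e_nat_mul geom_bound)

lemma e_std (p : ℕ) [NeZero p] (m : ℤ) : e ((m : ℝ) / p) = ZMod.stdAddChar (N := p) (m : ZMod p) := by
  rw [ZMod.stdAddChar_coe]
  unfold e
  congr 1
  push_cast
  ring

lemma e_val (p : ℕ) [NeZero p] (h : ℕ) (z : ZMod p) :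
    e ((h : ℝ) * (z.val : ℝ) / p) = ZMod.stdAddChar (N := p) ((h : ZMod p) * z) := by
  have h1 := e_std p ((h * z.val : ℕ) : ℤ)
  have h2 : (((h * z.val : ℕ) : ℤ) : ZMod p) = (h : ZMod p) * z := by
    push_cast
    rw [ZMod.natCast_zmod_val]
  rw [h2] at h1
  rw [← h1]
  congr 1
  push_cast
  ring

lemma psi_sum {R : Type*} [AddCommMonoid R] {ι : Type*} (ψ : AddChar R ℂ) (s : Finset ι)
    (f : ι → R) : ψ (∑ i ∈ s, f i) = ∏ i ∈ s, ψ (f i) := by
  classical
  induction s using Finset.induction_on with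
  | empty => simp
  | insert a s ha ih => rw [sum_insert ha, prod_insert ha, AddChar.map_add_eq_mul, ih]

/-- orthogonality for vectors -/
lemma orth (p k : ℕ) [Fact p.Prime] (z : Fin k → ZMod p) :
    ∑ u : Fin k → ZMod p, ZMod.stdAddChar (N := p) (z ⬝ᵥ u) = if z = 0 then (p : ℂ) ^ k else 0 := by
  classical
  have h1 : ∀ u ∈ (univ : Finset (Fin k → ZMod p)), ZMod.stdAddChar (N := p) (z ⬝ᵥ u) =
      ∏ i, ZMod.stdAddChar (N := p) (u i * z i) := by
    intro u _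
    unfold dotProduct
    rw [psi_sum]
    exact prod_congr rfl fun i _ => by rw [mul_comm]
  rw [sum_congr rfl h1]
  have h2 := Finset.prod_univ_sum (fun _ : Fin k => (univ : Finset (ZMod p)))
    (fun i a => ZMod.stdAddChar (N := p) (a * z i))
  rw [Fintype.piFinset_univ] at h2
  rw [← h2]
  have h3 : ∀ i ∈ (univ : Finset (Fin k)), ∑ a : ZMod p, ZMod.stdAddChar (N := p) (a * z i) =
      if z i = 0 then (p : ℂ) else 0 := by
    intro i _
    rw [AddChar.sum_mulShift _ (ZMod.isPrimitive_stdAddChar p), ZMod.card]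
    push_cast
    rfl
  rw [prod_congr rfl h3]
  split_ifs with h
  · subst h
    simp
  · obtain ⟨i, hi⟩ := Function.ne_iff.1 h
    exact prod_eq_zero (mem_univ i) (if_neg hi)

section

variable {p k : ℕ} [Fact p.Prime] (A : Matrix (Fin k) (Fin k) (ZMod p)) (T : ℕ)
  (c : ℕ) (h : Fin k → ZMod p)

/-- the exponential sum over the orbit -/
noncomputable def F (u : Fin k → ZMod p) : ℂ :=
  ∑ x ∈ range T, e ((c : ℝ) * x / T) * ZMod.stdAddChar (N := p) (h ⬝ᵥ (A ^ x *ᵥ u))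

lemma F_shift (hT : 1 ≤ T) (hA : A ^ T = 1) (u : Fin k → ZMod p) :
    ‖F A T c h (A *ᵥ u)‖ = ‖F A T c h u‖ := by
  have hT0 : (T : ℝ) ≠ 0 := by exact_mod_cast (by omega : T ≠ 0)
  set g : ℕ → ℂ := fun x => e ((c : ℝ) * x / T) * ZMod.stdAddChar (N := p) (h ⬝ᵥ (A ^ x *ᵥ u))
    with hg
  have h1 : F A T c h (A *ᵥ u) = e (-((c : ℝ) / T)) * ∑ x ∈ range T, g (x + 1) := by
    unfold F
    rw [mul_sum]
    refine sum_congr rfl fun x _ => ?_
    rw [hg]
    simp only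
    rw [mulVec_mulVec, ← pow_succ, ← mul_assoc, ← e_add]
    congr 2
    push_cast
    ring
  have h2 : g T = g 0 := by
    rw [hg]
    simp only
    rw [hA, pow_zero]
    have h3 : (c : ℝ) * T / T = ((c : ℤ) : ℝ) := by
      push_cast
      field_simp
    have h4 : (c : ℝ) * ((0 : ℕ) : ℝ) / T = ((0 : ℤ) : ℝ) := by simp
    rw [h3, h4, e_int, e_int]
  have h3 : ∑ x ∈ range T, g (x + 1) = ∑ x ∈ range T, g x := by
    have h4 := sum_range_succ g T
    have h5 := sum_range_succ' g T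
    rw [h2] at h4
    have h6 := h4.symm.trans h5
    exact (add_right_cancel h6).symm
  rw [h1, h3, norm_mul, norm_e, one_mul]
  rfl

lemma F_orbit (hT : 1 ≤ T) (hA : A ^ T = 1) (u : Fin k → ZMod p) (y : ℕ) :
    ‖F A T c h (A ^ y *ᵥ u)‖ = ‖F A T c h u‖ := by
  induction y with
  | zero => rw [pow_zero, one_mulVec]
  | succ y ih =>
    rw [pow_succ', ← mulVec_mulVec, F_shift A T c h hT hA, ih]

lemma inj_left (hT : 1 ≤ T) (hA : A ^ T = 1) (hfree : ∀ x, 0 < x → x < T → IsUnit (A ^ x - 1))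
    (hh : h ≠ 0) {x y : ℕ} (hx : x < T) (hy : y < T) (hxy : h ᵥ* A ^ x = h ᵥ* A ^ y) : x = y := by
  have hAu : IsUnit A := IsUnit.of_pow_eq_one hA (by omega)
  have key : ∀ x y : ℕ, x < y → y < T → h ᵥ* A ^ x ≠ h ᵥ* A ^ y := by
    intro x y hxy hyT heq
    have h1 : (h ᵥ* (A ^ (y - x) - 1)) ᵥ* A ^ x = 0 := by
      rw [vecMul_vecMul, sub_mul, one_mul, ← pow_add, Nat.sub_add_cancel hxy.le, vecMul_sub, heq,
        sub_self]
    have h2 : h ᵥ* (A ^ (y - x) - 1) = 0 := by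
      refine vecMul_injective_of_isUnit (hAu.pow x) ?_
      simp only
      rw [h1, zero_vecMul]
    refine hh (vecMul_injective_of_isUnit (hfree (y - x) (by omega) (by omega)) ?_)
    simp only
    rw [h2, zero_vecMul]
  rcases lt_trichotomy x y with h1 | h1 | h1
  · exact absurd hxy (key x y h1 hy)
  · exact h1
  · exact absurd hxy.symm (key y x h1 hx)

lemma inj_right (hT : 1 ≤ T) (hA : A ^ T = 1) (hfree : ∀ x, 0 < x → x < T → IsUnit (A ^ x - 1))
    (u : Fin k → ZMod p) (hu : u ≠ 0) {x y : ℕ} (hx : x < T) (hy : y < T)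
    (hxy : A ^ x *ᵥ u = A ^ y *ᵥ u) : x = y := by
  have hAu : IsUnit A := IsUnit.of_pow_eq_one hA (by omega)
  have key : ∀ x y : ℕ, x < y → y < T → A ^ x *ᵥ u ≠ A ^ y *ᵥ u := by
    intro x y hxy hyT heq
    have h1 : A ^ x *ᵥ ((A ^ (y - x) - 1) *ᵥ u) = 0 := by
      rw [mulVec_mulVec, mul_sub, mul_one, ← pow_add, Nat.add_sub_cancel' hxy.le, sub_mulVec, heq,
        sub_self]
    have h2 : (A ^ (y - x) - 1) *ᵥ u = 0 := by
      refine mulVec_injective_of_isUnit (hAu.pow x) ?_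
      rw [h1, mulVec_zero]
    refine hu (mulVec_injective_of_isUnit (hfree (y - x) (by omega) (by omega)) ?_)
    rw [h2, mulVec_zero]
  rcases lt_trichotomy x y with h1 | h1 | h1
  · exact absurd hxy (key x y h1 hy)
  · exact h1
  · exact absurd hxy.symm (key y x h1 hx)

lemma F_second (hT : 1 ≤ T) (hA : A ^ T = 1)
    (hfree : ∀ x, 0 < x → x < T → IsUnit (A ^ x - 1)) (hh : h ≠ 0) :
    ∑ u : Fin k → ZMod p, ‖F A T c h u‖ ^ 2 = (p : ℝ) ^ k * T := by
  classical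
  have h1 : ∀ u ∈ (univ : Finset (Fin k → ZMod p)), ((‖F A T c h u‖ ^ 2 : ℝ) : ℂ) =
      ∑ x ∈ range T, ∑ y ∈ range T, (e ((c : ℝ) * x / T) * e (-((c : ℝ) * y / T))) *
        ZMod.stdAddChar (N := p) ((h ᵥ* A ^ x - h ᵥ* A ^ y) ⬝ᵥ u) := by
    intro u _
    push_cast
    rw [← Complex.mul_conj']
    unfold F
    rw [map_sum, sum_mul_sum]
    refine sum_congr rfl fun x _ => sum_congr rfl fun y _ => ?_
    rw [map_mul, conj_e, ← AddChar.map_neg_eq_conj, sub_dotProduct, ← dotProduct_mulVec,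
      ← dotProduct_mulVec, sub_eq_add_neg, AddChar.map_add_eq_mul]
    ring
  have h2 : ((∑ u : Fin k → ZMod p, ‖F A T c h u‖ ^ 2 : ℝ) : ℂ) = (((p : ℝ) ^ k * T : ℝ) : ℂ) := by
    rw [Complex.ofReal_sum, sum_congr rfl h1, sum_comm]
    have h3 : ∀ x ∈ range T, ∑ u : Fin k → ZMod p, ∑ y ∈ range T,
        (e ((c : ℝ) * x / T) * e (-((c : ℝ) * y / T))) *
        ZMod.stdAddChar (N := p) ((h ᵥ* A ^ x - h ᵥ* A ^ y) ⬝ᵥ u) = (p : ℂ) ^ k := by
      intro x hx
      rw [sum_comm]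
      have h4 : ∀ y ∈ range T, ∑ u : Fin k → ZMod p,
          (e ((c : ℝ) * x / T) * e (-((c : ℝ) * y / T))) *
          ZMod.stdAddChar (N := p) ((h ᵥ* A ^ x - h ᵥ* A ^ y) ⬝ᵥ u) =
          if y = x then (p : ℂ) ^ k else 0 := by
        intro y hy
        rw [← mul_sum, orth]
        by_cases hxy : y = x
        · subst hxy
          rw [sub_self, if_pos rfl, if_pos rfl, ← e_add, add_neg_cancel, e_zero, one_mul]
        · rw [if_neg hxy, if_neg, mul_zero]
          intro h5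
          exact hxy (inj_left A T h hT hA hfree hh (mem_range.1 hy) (mem_range.1 hx)
            (sub_eq_zero.1 h5).symm)
      rw [sum_congr rfl h4, sum_ite_eq', if_pos hx]
    rw [sum_congr rfl h3, sum_const, card_range, nsmul_eq_mul]
    push_cast
    ring
  exact_mod_cast h2

lemma F_bound (hT : 1 ≤ T) (hA : A ^ T = 1)
    (hfree : ∀ x, 0 < x → x < T → IsUnit (A ^ x - 1)) (hh : h ≠ 0) (v : Fin k → ZMod p)
    (hv : v ≠ 0) : ‖F A T c h v‖ ≤ (p : ℝ) ^ ((k : ℝ) / 2) := by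
  classical
  have hT0 : (0 : ℝ) < T := by exact_mod_cast hT
  have h1 := F_second A T c h hT hA hfree hh
  have h2 : ∑ y ∈ range T, ‖F A T c h (A ^ y *ᵥ v)‖ ^ 2 ≤
      ∑ u : Fin k → ZMod p, ‖F A T c h u‖ ^ 2 := by
    rw [← sum_image (f := fun u => ‖F A T c h u‖ ^ 2) (g := fun y => A ^ y *ᵥ v) (s := range T) (by
      intro x hx y hy hxy
      exact inj_right A T hT hA hfree v hv (mem_range.1 (mem_coe.1 hx)) (mem_range.1 (mem_coe.1 hy))
        hxy)]
    exact sum_le_sum_of_subset_of_nonneg (subset_univ _) fun u _ _ => by positivity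
  rw [sum_congr rfl fun y _ => by rw [F_orbit A T c h hT hA v y], sum_const, card_range,
    nsmul_eq_mul, h1] at h2
  have h3 : ‖F A T c h v‖ ^ 2 ≤ (p : ℝ) ^ k := by
    have : (T : ℝ) * ‖F A T c h v‖ ^ 2 ≤ T * (p : ℝ) ^ k := by linarith
    exact le_of_mul_le_mul_left this hT0
  have h4 : ((p : ℝ) ^ ((k : ℝ) / 2)) ^ 2 = (p : ℝ) ^ k := by
    rw [← Real.rpow_natCast, ← Real.rpow_mul (Nat.cast_nonneg p), ← Real.rpow_natCast]
    congr 1
    push_cast
    ring
  rw [← h4] at h3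
  exact (pow_le_pow_iff_left₀ (norm_nonneg _) (by positivity) (by norm_num)).1 h3

/-- an orbit has at most `p ^ k` members -/
lemma orbit_card (hT : 1 ≤ T) (hA : A ^ T = 1)
    (hfree : ∀ x, 0 < x → x < T → IsUnit (A ^ x - 1)) (v : Fin k → ZMod p)
    (hv : v ≠ 0) : T ≤ p ^ k := by
  classical
  have h1 : (range T).card ≤ (univ : Finset (Fin k → ZMod p)).card :=
    card_le_card_of_injOn (fun y => A ^ y *ᵥ v) (fun y _ => mem_univ _) (by
      intro x hx y hy hxy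
      exact inj_right A T hT hA hfree v hv (mem_range.1 (mem_coe.1 hx)) (mem_range.1 (mem_coe.1 hy))
        hxy)
  rw [card_range, card_univ, Fintype.card_fun, ZMod.card, Fintype.card_fin] at h1
  exact h1

/-- the sums of `main` are the sums over the orbit -/
lemma sum_eq (h' : Fin k → ℕ) (v w : Fin k → ZMod p) :
    ‖∑ x ∈ range T, e ((c : ℝ) * x / T) *
      ∏ i, e ((h' i : ℝ) * ((((A ^ x *ᵥ v + w) i).val : ℕ) : ℝ) / p)‖ =
    ‖F A T c (fun i => (h' i : ZMod p)) v‖ := by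
  have h1 : ∀ x ∈ range T, e ((c : ℝ) * x / T) *
      ∏ i, e ((h' i : ℝ) * ((((A ^ x *ᵥ v + w) i).val : ℕ) : ℝ) / p) =
      ZMod.stdAddChar (N := p) ((fun i => (h' i : ZMod p)) ⬝ᵥ w) *
        (e ((c : ℝ) * x / T) *
          ZMod.stdAddChar (N := p) ((fun i => (h' i : ZMod p)) ⬝ᵥ (A ^ x *ᵥ v))) := by
    intro x _
    have h2 : ∏ i, e ((h' i : ℝ) * ((((A ^ x *ᵥ v + w) i).val : ℕ) : ℝ) / p) =
        ZMod.stdAddChar (N := p) ((fun i => (h' i : ZMod p)) ⬝ᵥ (A ^ x *ᵥ v + w)) := by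
      unfold dotProduct
      rw [psi_sum]
      exact prod_congr rfl fun i _ => e_val p (h' i) _
    rw [h2, dotProduct_add, AddChar.map_add_eq_mul]
    ring
  rw [sum_congr rfl h1, ← mul_sum, norm_mul, AddChar.norm_apply, one_mul]
  rfl

lemma cast_ne_zero (h' : Fin k → ℕ) (hp : ∀ i, h' i < p) (hh : h' ≠ 0) :
    (fun i => (h' i : ZMod p)) ≠ 0 := by
  intro h0
  apply hh
  funext i
  have h1 := congrFun h0 i
  simp only [Pi.zero_apply] at h1 ⊢
  rw [ZMod.natCast_eq_zero_iff] at h1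
  exact Nat.eq_zero_of_dvd_of_lt h1 (hp i)

end

end Pool.Agent.N286.DE
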